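import Pool.Agent.X214.OP.Basic

/-! Absolutely convergent power series. -/

namespace Pool.Agent.X214.OP

open PowerSeries

def Ab (ρ : ℝ) (u : PowerSeries ℂ) : Prop := Summable fun k => ‖coeff k u‖ * ρ ^ k

noncomputable def nm (ρ : ℝ) (u : PowerSeries ℂ) : ℝ := ∑' k, ‖coeff k u‖ * ρ ^ k

noncomputable def ev (z : ℂ) (u : PowerSeries ℂ) : ℂ := ∑' k, coeff k u * z ^ k

theorem nm_nonneg {ρ : ℝ} (hρ : 0 ≤ ρ) (u : PowerSeries ℂ) : 0 ≤ nm ρ u :=
  tsum_nonneg fun k => by positivity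

theorem Ab.mul {ρ : ℝ} (hρ : 0 ≤ ρ) {u v : PowerSeries ℂ} (hu : Ab ρ u) (hv : Ab ρ v) :
    Ab ρ (u * v) ∧ nm ρ (u * v) ≤ nm ρ u * nm ρ v := by
  have hu' : Summable fun k => ‖‖coeff k u‖ * ρ ^ k‖ := hu.norm
  have hv' : Summable fun k => ‖‖coeff k v‖ * ρ ^ k‖ := hv.norm
  have h1 := (summable_norm_sum_mul_antidiagonal_of_summable_norm hu' hv').of_norm
  have h2 := tsum_mul_tsum_eq_tsum_sum_antidiagonal_of_summable_norm hu' hv'
  have h3 : ∀ k, ‖coeff k (u * v)‖ * ρ ^ k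
      ≤ ∑ kl ∈ Finset.HasAntidiagonal.antidiagonal k, ‖coeff kl.1 u‖ * ρ ^ kl.1 * (‖coeff kl.2 v‖ * ρ ^ kl.2) := by
    intro k
    rw [coeff_mul]
    calc ‖∑ p ∈ Finset.HasAntidiagonal.antidiagonal k, coeff p.1 u * coeff p.2 v‖ * ρ ^ k
        ≤ (∑ p ∈ Finset.HasAntidiagonal.antidiagonal k, ‖coeff p.1 u * coeff p.2 v‖) * ρ ^ k :=
          mul_le_mul_of_nonneg_right (norm_sum_le _ _) (by positivity)
      _ = _ := by
          rw [Finset.sum_mul]
          refine Finset.sum_congr rfl fun p hp => ?_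
          rw [Finset.HasAntidiagonal.mem_antidiagonal] at hp
          rw [norm_mul, ← hp, pow_add]; ring
  have h4 : Ab ρ (u * v) := Summable.of_nonneg_of_le (fun k => by positivity) h3 h1
  refine ⟨h4, ?_⟩
  unfold nm
  rw [h2]
  exact h4.tsum_le_tsum h3 h1

theorem Ab.add {ρ : ℝ} (hρ : 0 ≤ ρ) {u v : PowerSeries ℂ} (hu : Ab ρ u) (hv : Ab ρ v) :
    Ab ρ (u + v) ∧ nm ρ (u + v) ≤ nm ρ u + nm ρ v := by
  have h3 : ∀ k, ‖coeff k (u + v)‖ * ρ ^ k ≤ ‖coeff k u‖ * ρ ^ k + ‖coeff k v‖ * ρ ^ k := by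
    intro k
    rw [map_add, ← add_mul]
    exact mul_le_mul_of_nonneg_right (norm_add_le _ _) (by positivity)
  have h4 : Ab ρ (u + v) := Summable.of_nonneg_of_le (fun k => by positivity) h3 (Summable.add hu hv)
  refine ⟨h4, ?_⟩
  unfold nm
  rw [← Summable.tsum_add hu hv]
  exact h4.tsum_le_tsum h3 (Summable.add hu hv)

theorem Ab.mono {ρ σ : ℝ} (h0 : 0 ≤ σ) (h : σ ≤ ρ) {u : PowerSeries ℂ} (hu : Ab ρ u) :
    Ab σ u ∧ nm σ u ≤ nm ρ u := by
  have h3 : ∀ k, ‖coeff k u‖ * σ ^ k ≤ ‖coeff k u‖ * ρ ^ k := fun k =>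
    mul_le_mul_of_nonneg_left (pow_le_pow_left₀ h0 h k) (norm_nonneg _)
  have h4 : Ab σ u := Summable.of_nonneg_of_le (fun k => by positivity) h3 hu
  exact ⟨h4, h4.tsum_le_tsum h3 hu⟩

theorem Ab.of_poly (ρ : ℝ) (p : Polynomial ℂ) : Ab ρ (p : PowerSeries ℂ) := by
  refine summable_of_ne_finset_zero (s := Finset.range (p.natDegree + 1)) fun k hk => ?_
  rw [Finset.mem_range, not_lt] at hk
  rw [Polynomial.coeff_coe, Polynomial.coeff_eq_zero_of_natDegree_lt (by omega)]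
  simp

theorem nm_term {ρ : ℝ} (hρ : 0 ≤ ρ) (c : ℂ) (m : ℕ) :
    Ab ρ (C c * X ^ m) ∧ nm ρ (C c * X ^ m) = ‖c‖ * ρ ^ m := by
  have h : ∀ k, k ≠ m → ‖coeff k (C c * X ^ m : PowerSeries ℂ)‖ * ρ ^ k = 0 := by
    intro k hk
    rw [coeff_C_mul, coeff_X_pow, if_neg hk]; simp
  have h2 := hasSum_single (f := fun k => ‖coeff k (C c * X ^ m : PowerSeries ℂ)‖ * ρ ^ k) m h
  refine ⟨h2.summable, ?_⟩
  unfold nm
  rw [h2.tsum_eq, coeff_C_mul, coeff_X_pow, if_pos rfl, mul_one]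

theorem Ab.ev_summable {ρ : ℝ} {u : PowerSeries ℂ} (hu : Ab ρ u) {z : ℂ} (hz : ‖z‖ ≤ ρ) :
    Summable fun k => ‖coeff k u * z ^ k‖ := by
  refine Summable.of_nonneg_of_le (fun k => norm_nonneg _) (fun k => ?_) hu
  rw [norm_mul, norm_pow]
  exact mul_le_mul_of_nonneg_left (pow_le_pow_left₀ (norm_nonneg _) hz k) (norm_nonneg _)

theorem ev_mul {ρ : ℝ} {u v : PowerSeries ℂ} (hu : Ab ρ u) (hv : Ab ρ v) {z : ℂ} (hz : ‖z‖ ≤ ρ) :
    ev z (u * v) = ev z u * ev z v := by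
  unfold ev
  rw [tsum_mul_tsum_eq_tsum_sum_antidiagonal_of_summable_norm (hu.ev_summable hz)
    (hv.ev_summable hz)]
  refine tsum_congr fun k => ?_
  rw [coeff_mul, Finset.sum_mul]
  refine Finset.sum_congr rfl fun p hp => ?_
  rw [Finset.HasAntidiagonal.mem_antidiagonal] at hp
  rw [← hp, pow_add]; ring

theorem norm_ev_le {ρ : ℝ} {u : PowerSeries ℂ} (hu : Ab ρ u) {z : ℂ} (hz : ‖z‖ ≤ ρ) :
    ‖ev z u‖ ≤ nm ρ u := by
  refine (norm_tsum_le_tsum_norm (hu.ev_summable hz)).trans ?_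
  refine (hu.ev_summable hz).tsum_le_tsum (fun k => ?_) hu
  rw [norm_mul, norm_pow]
  exact mul_le_mul_of_nonneg_left (pow_le_pow_left₀ (norm_nonneg _) hz k) (norm_nonneg _)

theorem ev_one (z : ℂ) : ev z 1 = 1 := by
  unfold ev
  rw [tsum_eq_single 0]
  · simp
  · intro k hk
    rw [coeff_one, if_neg hk]; simp

theorem ev_term (z c : ℂ) (m : ℕ) : ev z (C c * X ^ m) = c * z ^ m := by
  unfold ev
  rw [tsum_eq_single m]
  · rw [coeff_C_mul, coeff_X_pow, if_pos rfl, mul_one]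
  · intro k hk
    rw [coeff_C_mul, coeff_X_pow, if_neg hk]; simp

theorem ev_sub {ρ : ℝ} {u v : PowerSeries ℂ} (hu : Ab ρ u) (hv : Ab ρ v) {z : ℂ} (hz : ‖z‖ ≤ ρ) :
    ev z (u - v) = ev z u - ev z v := by
  unfold ev
  rw [← (hu.ev_summable hz).of_norm.tsum_sub (hv.ev_summable hz).of_norm]
  refine tsum_congr fun k => ?_
  rw [map_sub, sub_mul]

theorem nsq_le {w : ℕ → ℝ} (hw : ∀ k, 0 ≤ w k) (hm : Antitone w) {u : PowerSeries ℂ}
    (hu : Ab 1 u) (N : ℕ) (hN : ∀ k < N, coeff k u = 0) :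
    InH w u ∧ nsq w u ≤ w N * nm 1 u ^ 2 := by
  have h0 : ∀ k, ‖coeff k u‖ ≤ nm 1 u := by
    intro k
    have := hu.le_tsum k (fun j _ => by positivity)
    simpa [nm] using this
  have hnm : 0 ≤ nm 1 u := nm_nonneg zero_le_one u
  have h1 : ∀ k, ‖coeff k u‖ ^ 2 * w k ≤ w N * nm 1 u * (‖coeff k u‖ * 1 ^ k) := by
    intro k
    by_cases hk : k < N
    · rw [hN k hk]; simp
    · have h2 : w k ≤ w N := hm (not_lt.1 hk)
      have h3 := h0 k
      have h4 := norm_nonneg (coeff k u)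
      rw [one_pow, mul_one]
      calc ‖coeff k u‖ ^ 2 * w k ≤ (nm 1 u * ‖coeff k u‖) * w N := by
            apply mul_le_mul _ h2 (hw k) (by positivity)
            rw [sq]
            exact mul_le_mul_of_nonneg_right h3 h4
        _ = _ := by ring
  have h5 : Summable fun k => w N * nm 1 u * (‖coeff k u‖ * 1 ^ k) := hu.mul_left _
  have h6 : InH w u := Summable.of_nonneg_of_le (fun k => mul_nonneg (sq_nonneg _) (hw k)) h1 h5
  refine ⟨h6, ?_⟩
  calc nsq w u ≤ ∑' k, w N * nm 1 u * (‖coeff k u‖ * 1 ^ k) := h6.tsum_le_tsum h1 h5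
    _ = w N * nm 1 u * nm 1 u := by rw [tsum_mul_left]; rfl
    _ = _ := by ring

/-- the class of polynomials used as building blocks -/
def Good (G : Polynomial ℂ) : Prop :=
  ∃ g : PowerSeries ℂ, (G : PowerSeries ℂ) * g = 1 ∧ ∃ ρ : ℝ, 1 < ρ ∧ Ab ρ g

theorem Good.one : Good 1 := by
  refine ⟨1, by simp, 2, by norm_num, ?_⟩
  have := Ab.of_poly 2 (1 : Polynomial ℂ)
  rwa [Polynomial.coe_one] at this

theorem Good.mul {G H : Polynomial ℂ} (hG : Good G) (hH : Good H) : Good (G * H) := by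
  obtain ⟨g, h1, ρ, hρ, hg⟩ := hG
  obtain ⟨h, h2, σ, hσ, hh⟩ := hH
  refine ⟨g * h, ?_, min ρ σ, lt_min hρ hσ, ?_⟩
  · rw [Polynomial.coe_mul]
    calc (G : PowerSeries ℂ) * H * (g * h) = (G * g) * (H * h) := by ring
      _ = 1 := by rw [h1, h2, one_mul]
  · have h0 : 0 ≤ min ρ σ := by
      have := lt_min hρ hσ; linarith
    exact (Ab.mul h0 (hg.mono h0 (min_le_left _ _)).1 (hh.mono h0 (min_le_right _ _)).1).1

theorem Good.basic {b : ℂ} (hb : ‖b‖ < 1) {m : ℕ} (hm : 0 < m) :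
    Good (1 + Polynomial.C b * Polynomial.X ^ m) := by
  refine ⟨PowerSeries.mk fun k => if m ∣ k then (-b) ^ (k / m) else 0, ?_, ?_⟩
  · ext k
    have hc : ((1 + Polynomial.C b * Polynomial.X ^ m : Polynomial ℂ) : PowerSeries ℂ)
        = 1 + C b * X ^ m := by
      rw [Polynomial.coe_add, Polynomial.coe_one, Polynomial.coe_mul, Polynomial.coe_C,
        Polynomial.coe_pow, Polynomial.coe_X]
    rw [hc, add_mul, one_mul, map_add, mul_assoc, coeff_C_mul, coeff_X_pow_mul', coeff_mk,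
      coeff_one]
    by_cases hk : m ≤ k
    · rw [if_pos hk, coeff_mk]
      have hk0 : k ≠ 0 := by omega
      rw [if_neg hk0]
      by_cases hd : m ∣ k
      · have hd' : m ∣ k - m := Nat.dvd_sub hd (dvd_refl m)
        rw [if_pos hd, if_pos hd']
        obtain ⟨i, rfl⟩ := hd
        have hi : i ≠ 0 := by rintro rfl; simp at hk0
        obtain ⟨j, rfl⟩ := Nat.exists_eq_succ_of_ne_zero hi
        have h1 : m * (j + 1) - m = m * j := by rw [mul_add, mul_one, Nat.add_sub_cancel]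
        rw [Nat.succ_eq_add_one, h1, Nat.mul_div_cancel_left _ hm, Nat.mul_div_cancel_left _ hm,
          pow_succ]
        ring
      · have hd' : ¬ m ∣ k - m := fun h => hd (by
          have := Nat.dvd_add h (dvd_refl m)
          rwa [Nat.sub_add_cancel hk] at this)
        rw [if_neg hd, if_neg hd']; simp
    · rw [if_neg hk]
      by_cases h0 : k = 0
      · subst h0; simp
      · rw [if_neg h0, if_neg (fun hd => hk (Nat.le_of_dvd (Nat.pos_of_ne_zero h0) hd))]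
        simp
  · have h1 : ∃ ρ : ℝ, 1 < ρ ∧ ‖b‖ * ρ ^ m < 1 := by
      have hc : Filter.Tendsto (fun x : ℝ => ‖b‖ * x ^ m) (nhds 1) (nhds (‖b‖ * 1 ^ m)) :=
        (continuous_const.mul (continuous_pow m)).tendsto 1
      rw [one_pow, mul_one] at hc
      have h2 := (hc.eventually_lt_const hb)
      obtain ⟨δ, hδ, h3⟩ := Metric.eventually_nhds_iff.1 h2
      refine ⟨1 + δ / 2, by linarith, h3 ?_⟩
      rw [Real.dist_eq, add_sub_cancel_left, abs_of_pos (by linarith)]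
      linarith
    obtain ⟨ρ, hρ, hb1⟩ := h1
    refine ⟨ρ, hρ, ?_⟩
    have hinj : Function.Injective fun i : ℕ => m * i := fun i j h =>
      Nat.eq_of_mul_eq_mul_left hm h
    unfold Ab
    rw [← hinj.summable_iff]
    · have : ((fun k => ‖coeff k (PowerSeries.mk fun k => if m ∣ k then (-b) ^ (k / m)
          else 0 : PowerSeries ℂ)‖ * ρ ^ k) ∘ fun i : ℕ => m * i)
          = fun i => (‖b‖ * ρ ^ m) ^ i := by
        funext i
        simp only [Function.comp, coeff_mk]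
        rw [if_pos (dvd_mul_right m i), Nat.mul_div_cancel_left i hm, norm_pow, norm_neg,
          mul_pow, pow_mul]
      rw [this]
      exact summable_geometric_of_lt_one (by positivity) hb1
    · intro k hk
      have : ¬ m ∣ k := fun ⟨i, hi⟩ => hk ⟨i, hi.symm⟩
      rw [coeff_mk, if_neg this]; simp

end Pool.Agent.X214.OP
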