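import Mathlib

/-! Weighted Hardy spaces via power series: basic estimates. -/

namespace Pool.Agent.X214.OP

open PowerSeries

/-- square of the norm of `u` in `H^2_w` -/
noncomputable def nsq (w : ℕ → ℝ) (u : PowerSeries ℂ) : ℝ := ∑' k, ‖coeff k u‖ ^ 2 * w k

/-- `u` lies in `H^2_w` -/
def InH (w : ℕ → ℝ) (u : PowerSeries ℂ) : Prop := Summable fun k => ‖coeff k u‖ ^ 2 * w k

/-- `q` is the `n`-th optimal polynomial approximant of `1/f` in `H^2_w` -/
def IsOPA (w : ℕ → ℝ) (f : PowerSeries ℂ) (n : ℕ) (q : Polynomial ℂ) : Prop :=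
  q.natDegree ≤ n ∧ ∀ p : Polynomial ℂ, p.natDegree ≤ n →
    nsq w ((q : PowerSeries ℂ) * f - 1) ≤ nsq w ((p : PowerSeries ℂ) * f - 1)

variable {w : ℕ → ℝ}

theorem nsq_nonneg (hw : ∀ k, 0 ≤ w k) (u : PowerSeries ℂ) : 0 ≤ nsq w u :=
  tsum_nonneg fun k => mul_nonneg (sq_nonneg _) (hw k)

theorem InH.add (hw : ∀ k, 0 ≤ w k) {u v : PowerSeries ℂ} (hu : InH w u) (hv : InH w v) :
    InH w (u + v) ∧ nsq w (u + v) ≤ 2 * nsq w u + 2 * nsq w v := by
  have h1 : ∀ k, ‖coeff k (u + v)‖ ^ 2 * w k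
      ≤ 2 * (‖coeff k u‖ ^ 2 * w k) + 2 * (‖coeff k v‖ ^ 2 * w k) := by
    intro k
    have h2 : ‖coeff k (u + v)‖ ≤ ‖coeff k u‖ + ‖coeff k v‖ := by
      rw [map_add]; exact norm_add_le _ _
    have h3 : ‖coeff k (u + v)‖ ^ 2 ≤ 2 * ‖coeff k u‖ ^ 2 + 2 * ‖coeff k v‖ ^ 2 := by
      have := norm_nonneg (coeff k (u + v))
      nlinarith [sq_nonneg (‖coeff k u‖ - ‖coeff k v‖), norm_nonneg (coeff k u),
        norm_nonneg (coeff k v)]
    nlinarith [hw k]
  have h4 : Summable fun k => 2 * (‖coeff k u‖ ^ 2 * w k) + 2 * (‖coeff k v‖ ^ 2 * w k) :=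
    (hu.mul_left 2).add (hv.mul_left 2)
  have h5 : InH w (u + v) :=
    Summable.of_nonneg_of_le (fun k => mul_nonneg (sq_nonneg _) (hw k)) h1 h4
  refine ⟨h5, ?_⟩
  unfold nsq
  rw [← tsum_mul_left, ← tsum_mul_left, ← (hu.mul_left 2).tsum_add (hv.mul_left 2)]
  exact h5.tsum_le_tsum h1 h4

theorem InH.neg {u : PowerSeries ℂ} (hu : InH w u) : InH w (-u) := by
  unfold InH at *
  simpa using hu

theorem nsq_neg (u : PowerSeries ℂ) : nsq w (-u) = nsq w u := by
  unfold nsq; simp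

theorem InH.sub (hw : ∀ k, 0 ≤ w k) {u v : PowerSeries ℂ} (hu : InH w u) (hv : InH w v) :
    InH w (u - v) ∧ nsq w (u - v) ≤ 2 * nsq w u + 2 * nsq w v := by
  have := InH.add hw hu hv.neg
  rw [nsq_neg, ← sub_eq_add_neg] at this
  exact this

theorem InH.mul_poly (hw : ∀ k, 0 ≤ w k) (hm : ∀ k, w (k + 1) ≤ w k) (p : Polynomial ℂ) :
    ∃ K : ℝ, 0 ≤ K ∧ ∀ u : PowerSeries ℂ, InH w u →
      InH w ((p : PowerSeries ℂ) * u) ∧ nsq w ((p : PowerSeries ℂ) * u) ≤ K * nsq w u := by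
  have hX : ∀ u : PowerSeries ℂ, InH w u → InH w (X * u) ∧ nsq w (X * u) ≤ nsq w u := by
    intro u hu
    have h0 : ‖coeff 0 (X * u)‖ ^ 2 * w 0 = 0 := by simp
    have h1 : ∀ k, ‖coeff (k + 1) (X * u)‖ ^ 2 * w (k + 1) ≤ ‖coeff k u‖ ^ 2 * w k := by
      intro k
      rw [coeff_succ_X_mul]
      exact mul_le_mul_of_nonneg_left (hm k) (sq_nonneg _)
    have h2 : Summable fun k => ‖coeff (k + 1) (X * u)‖ ^ 2 * w (k + 1) :=
      Summable.of_nonneg_of_le (fun k => mul_nonneg (sq_nonneg _) (hw _)) h1 hu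
    have h3 : InH w (X * u) := (summable_nat_add_iff (f := fun k =>
      ‖coeff k (X * u)‖ ^ 2 * w k) 1).1 h2
    refine ⟨h3, ?_⟩
    unfold nsq
    rw [h3.tsum_eq_zero_add, h0, zero_add]
    exact h2.tsum_le_tsum h1 hu
  have hXn : ∀ (n : ℕ) (u : PowerSeries ℂ), InH w u →
      InH w (X ^ n * u) ∧ nsq w (X ^ n * u) ≤ nsq w u := by
    intro n
    induction n with
    | zero => intro u hu; simpa using hu
    | succ n ih =>
      intro u hu
      have h1 := ih u hu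
      have h2 := hX _ h1.1
      rw [pow_succ', mul_assoc]
      exact ⟨h2.1, h2.2.trans h1.2⟩
  induction p using Polynomial.induction_on' with
  | add p q hp hq =>
    obtain ⟨K1, hK1, h1⟩ := hp
    obtain ⟨K2, hK2, h2⟩ := hq
    refine ⟨2 * K1 + 2 * K2, by positivity, fun u hu => ?_⟩
    have h3 := InH.add hw (h1 u hu).1 (h2 u hu).1
    rw [Polynomial.coe_add, add_mul]
    refine ⟨h3.1, h3.2.trans ?_⟩
    nlinarith [(h1 u hu).2, (h2 u hu).2]
  | monomial n a =>
    refine ⟨‖a‖ ^ 2, by positivity, fun u hu => ?_⟩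
    have h1 := hXn n u hu
    have h2 : ((Polynomial.monomial n a : Polynomial ℂ) : PowerSeries ℂ) * u
        = C a * (X ^ n * u) := by
      rw [Polynomial.coe_monomial, PowerSeries.monomial_eq_mk, ← mul_assoc]
      congr 1
      ext k
      rw [coeff_mk, coeff_C_mul, coeff_X_pow]
      split_ifs <;> simp
    have h3 : ∀ k, ‖coeff k (C a * (X ^ n * u))‖ ^ 2 * w k
        = ‖a‖ ^ 2 * (‖coeff k (X ^ n * u)‖ ^ 2 * w k) := by
      intro k
      rw [coeff_C_mul, norm_mul]; ring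
    rw [h2]
    refine ⟨?_, ?_⟩
    · unfold InH
      simp only [h3]
      exact h1.1.mul_left _
    · unfold nsq
      simp only [h3]
      rw [tsum_mul_left]
      exact mul_le_mul_of_nonneg_left h1.2 (sq_nonneg _)

theorem InH.of_poly (p : Polynomial ℂ) : InH w (p : PowerSeries ℂ) := by
  unfold InH
  refine summable_of_ne_finset_zero (s := Finset.range (p.natDegree + 1)) fun k hk => ?_
  rw [Finset.mem_range, not_lt] at hk
  rw [Polynomial.coeff_coe, Polynomial.coeff_eq_zero_of_natDegree_lt (by omega)]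
  simp

theorem InH.one : InH w (1 : PowerSeries ℂ) := by
  have := InH.of_poly (w := w) (1 : Polynomial ℂ)
  rwa [Polynomial.coe_one] at this

/-- element of `ℓ²` of a series of `H^2_w` -/
noncomputable def emb (hw : ∀ k, 0 ≤ w k) (u : PowerSeries ℂ) (hu : InH w u) :
    lp (fun _ : ℕ => ℂ) 2 :=
  ⟨fun k => (Real.sqrt (w k) : ℂ) * coeff k u, by
    refine memℓp_gen ?_
    have : (fun k => ‖(Real.sqrt (w k) : ℂ) * coeff k u‖ ^ (2 : ENNReal).toReal)
        = fun k => ‖coeff k u‖ ^ 2 * w k := by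
      funext k
      rw [norm_mul, Complex.norm_real, Real.norm_of_nonneg (Real.sqrt_nonneg _)]
      norm_num
      rw [mul_pow, Real.sq_sqrt (hw k)]; ring
    rw [this]
    exact hu⟩

theorem emb_norm (hw : ∀ k, 0 ≤ w k) (u : PowerSeries ℂ) (hu : InH w u) :
    ‖emb hw u hu‖ ^ 2 = nsq w u := by
  have h := lp.norm_rpow_eq_tsum (p := 2) (by norm_num) (emb hw u hu)
  have h2 : ‖emb hw u hu‖ ^ (2 : ENNReal).toReal = ‖emb hw u hu‖ ^ 2 := by norm_num
  rw [← h2, h]
  unfold nsq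
  refine tsum_congr fun k => ?_
  change ‖(Real.sqrt (w k) : ℂ) * coeff k u‖ ^ (2 : ENNReal).toReal = _
  rw [norm_mul, Complex.norm_real, Real.norm_of_nonneg (Real.sqrt_nonneg _)]
  norm_num
  rw [mul_pow, Real.sq_sqrt (hw k)]; ring

theorem exists_OPA (hw : ∀ k, 0 ≤ w k) (hm : ∀ k, w (k + 1) ≤ w k) {f : PowerSeries ℂ}
    (hf : InH w f) (n : ℕ) : ∃ q, IsOPA w f n q := by
  classical
  have hin : ∀ p : Polynomial ℂ, InH w ((p : PowerSeries ℂ) * f) := fun p => by
    obtain ⟨K, _, hK⟩ := InH.mul_poly hw hm p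
    exact (hK f hf).1
  let T : Polynomial.degreeLT ℂ (n + 1) →ₗ[ℂ] lp (fun _ : ℕ => ℂ) 2 :=
    { toFun := fun p => emb hw ((p.1 : PowerSeries ℂ) * f) (hin p.1)
      map_add' := by
        intro p q
        ext k
        change (Real.sqrt (w k) : ℂ) * coeff k (((p.1 + q.1 : Polynomial ℂ) : PowerSeries ℂ) * f)
          = (Real.sqrt (w k) : ℂ) * coeff k ((p.1 : PowerSeries ℂ) * f)
            + (Real.sqrt (w k) : ℂ) * coeff k ((q.1 : PowerSeries ℂ) * f)
        rw [Polynomial.coe_add, add_mul, map_add, mul_add]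
      map_smul' := by
        intro c p
        ext k
        change (Real.sqrt (w k) : ℂ) * coeff k (((c • p.1 : Polynomial ℂ) : PowerSeries ℂ) * f)
          = c • ((Real.sqrt (w k) : ℂ) * coeff k ((p.1 : PowerSeries ℂ) * f))
        rw [Polynomial.smul_eq_C_mul, Polynomial.coe_mul, Polynomial.coe_C, mul_assoc,
          coeff_C_mul, smul_eq_mul]
        ring }
  haveI : Module.Finite ℂ (Polynomial.degreeLT ℂ (n + 1)) :=
    Module.Finite.equiv (Polynomial.degreeLTEquiv ℂ (n + 1)).symm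
  haveI : FiniteDimensional ℂ (LinearMap.range T) := inferInstance
  let y : lp (fun _ : ℕ => ℂ) 2 := emb hw 1 InH.one
  obtain ⟨q, hq⟩ := LinearMap.mem_range.1 ((LinearMap.range T).starProjection_apply_mem y)
  have hsub : ∀ p : Polynomial.degreeLT ℂ (n + 1),
      ‖y - T p‖ ^ 2 = nsq w ((p.1 : PowerSeries ℂ) * f - 1) := by
    intro p
    have h1 : InH w (1 - (p.1 : PowerSeries ℂ) * f) := (InH.sub hw InH.one (hin p.1)).1
    have h2 : y - T p = emb hw (1 - (p.1 : PowerSeries ℂ) * f) h1 := by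
      ext k
      change (Real.sqrt (w k) : ℂ) * coeff k 1
          - (Real.sqrt (w k) : ℂ) * coeff k ((p.1 : PowerSeries ℂ) * f)
        = (Real.sqrt (w k) : ℂ) * coeff k (1 - (p.1 : PowerSeries ℂ) * f)
      rw [map_sub, mul_sub]
    rw [h2, emb_norm, ← nsq_neg, neg_sub]
  refine ⟨q.1, ?_, fun p hp => ?_⟩
  · have := q.2
    rw [Polynomial.mem_degreeLT] at this
    by_cases h0 : q.1 = 0
    · rw [h0]; simp
    · rw [Polynomial.degree_eq_natDegree h0] at this
      have h1 : q.1.natDegree < n + 1 := by exact_mod_cast this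
      omega
  · have hp' : p ∈ Polynomial.degreeLT ℂ (n + 1) := by
      rw [Polynomial.mem_degreeLT]
      exact lt_of_le_of_lt Polynomial.degree_le_natDegree (by exact_mod_cast Nat.lt_succ_of_le hp)
    rw [← hsub q, ← hsub ⟨p, hp'⟩, hq]
    have h3 : ‖y - (LinearMap.range T).starProjection y‖ ≤ ‖y - T ⟨p, hp'⟩‖ := by
      rw [Submodule.starProjection_minimal]
      exact ciInf_le ⟨0, by rintro _ ⟨x, rfl⟩; exact norm_nonneg _⟩
        (⟨T ⟨p, hp'⟩, LinearMap.mem_range_self _ _⟩ : LinearMap.range T)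
    exact pow_le_pow_left₀ (norm_nonneg _) h3 2

end Pool.Agent.X214.OP
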