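import Pool.Agent.X214.OP.Main

/-! Cyclicity, uniqueness and the final assembly. -/

namespace Pool.Agent.X214.OP

open PowerSeries Filter

/-- every element of `H^2_w` converges on the unit disk -/
theorem disk_summable {w : ℕ → ℝ} (hw : IsWeight w) {u : PowerSeries ℂ} (hu : InH w u) {z : ℂ}
    (hz : ‖z‖ < 1) : Summable fun k => coeff k u * z ^ k := by
  obtain ⟨-, hpos, hr⟩ := hw
  by_cases hz0 : z = 0
  · subst hz0
    refine summable_of_ne_finset_zero (s := {0}) fun k hk => ?_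
    rw [Finset.mem_singleton] at hk
    rw [zero_pow hk, mul_zero]
  have hzp : 0 < ‖z‖ := norm_pos_iff.2 hz0
  have h1 : Summable fun k : ℕ => ‖z‖ ^ (2 * k) / w k := by
    refine summable_of_ratio_test_tendsto_lt_one (l := ‖z‖ ^ 2) (by nlinarith)
      (Eventually.of_forall fun k => ?_) ?_
    · exact div_ne_zero (pow_ne_zero _ hzp.ne') (hpos k).ne'
    · have h2 := hr.const_mul (‖z‖ ^ 2)
      rw [mul_one] at h2
      refine h2.congr fun k => ?_
      rw [Real.norm_of_nonneg (div_nonneg (by positivity) (hpos _).le),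
        Real.norm_of_nonneg (div_nonneg (by positivity) (hpos _).le)]
      have h3 := (hpos k).ne'
      have h4 := (hpos (k + 1)).ne'
      have h5 : ‖z‖ ^ (2 * k) ≠ 0 := pow_ne_zero _ hzp.ne'
      rw [show 2 * (k + 1) = 2 * k + 2 by ring, pow_add]
      field_simp
  refine Summable.of_norm ?_
  refine Summable.of_nonneg_of_le (fun k => norm_nonneg _) (fun k => ?_) (Summable.add hu h1)
  rw [norm_mul, norm_pow]
  have hs := Real.sq_sqrt (hpos k).le
  have hsp := Real.sqrt_pos.2 (hpos k)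
  have h3 : ‖coeff k u‖ * ‖z‖ ^ k
      = (‖coeff k u‖ * Real.sqrt (w k)) * (‖z‖ ^ k / Real.sqrt (w k)) := by
    field_simp
  have h4 : ‖coeff k u‖ ^ 2 * w k = (‖coeff k u‖ * Real.sqrt (w k)) ^ 2 := by
    rw [mul_pow, hs]
  have h5 : ‖z‖ ^ (2 * k) / w k = (‖z‖ ^ k / Real.sqrt (w k)) ^ 2 := by
    rw [div_pow, hs, ← pow_mul, mul_comm]
  rw [h3, h4, h5]
  have h6 : 0 ≤ ‖coeff k u‖ * Real.sqrt (w k) := by positivity
  have h7 : 0 ≤ ‖z‖ ^ k / Real.sqrt (w k) := by positivity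
  nlinarith [sq_nonneg (‖coeff k u‖ * Real.sqrt (w k) - ‖z‖ ^ k / Real.sqrt (w k))]

theorem cyclic_of {f : PowerSeries ℂ} (hf : InH wt f)
    (h : ∀ δ : ℝ, 0 < δ → ∃ p : Polynomial ℂ, nsq wt ((p : PowerSeries ℂ) * f - 1) < δ) :
    Cyclic wt f := by
  refine ⟨hf, fun g hg ε hε => ?_⟩
  -- approximate `g` by a polynomial
  have htail : Tendsto (fun K : ℕ => ∑' k, ‖coeff (k + K) g‖ ^ 2 * wt (k + K)) atTop (nhds 0) :=
    tendsto_sum_nat_add fun k => ‖coeff k g‖ ^ 2 * wt k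
  obtain ⟨K, hK⟩ := (htail.eventually_lt_const (by linarith : 0 < ε / 4)).exists
  set h0 : Polynomial ℂ := trunc K g with hh0
  have hin : InH wt ((h0 : PowerSeries ℂ) - g) := (InH.sub hw0 (InH.of_poly _) hg).1
  have hn : nsq wt ((h0 : PowerSeries ℂ) - g) < ε / 4 := by
    have h1 := Summable.sum_add_tsum_nat_add K hin
    unfold nsq
    rw [← h1, Finset.sum_eq_zero, zero_add]
    · refine lt_of_le_of_lt (le_of_eq ?_) hK
      refine tsum_congr fun k => ?_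
      rw [map_sub, hh0, Polynomial.coeff_coe, coeff_trunc, if_neg (by omega), zero_sub, norm_neg]
    · intro k hk
      rw [Finset.mem_range] at hk
      rw [map_sub, hh0, coeff_coe_trunc_of_lt hk, sub_self]; simp
  obtain ⟨Q, hQ, hQm⟩ := InH.mul_poly hw0 hm' h0
  obtain ⟨p, hp⟩ := h (ε / (4 * (Q + 1))) (by positivity)
  refine ⟨h0 * p, ?_⟩
  have hin2 : InH wt ((p : PowerSeries ℂ) * f - 1) := by
    obtain ⟨Q', _, hQ'⟩ := InH.mul_poly hw0 hm' p
    exact (InH.sub hw0 (hQ' f hf).1 InH.one).1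
  have h2 := hQm _ hin2
  have h3 := InH.add hw0 h2.1 hin
  have h4 : (h0 : PowerSeries ℂ) * ((p : PowerSeries ℂ) * f - 1) + ((h0 : PowerSeries ℂ) - g)
      = ((h0 * p : Polynomial ℂ) : PowerSeries ℂ) * f - g := by
    rw [Polynomial.coe_mul]; ring
  rw [h4] at h3
  have h5 : Q * nsq wt ((p : PowerSeries ℂ) * f - 1) ≤ ε / 4 := by
    calc Q * nsq wt ((p : PowerSeries ℂ) * f - 1) ≤ Q * (ε / (4 * (Q + 1))) :=
          mul_le_mul_of_nonneg_left hp.le hQ
      _ = (Q / (Q + 1)) * (ε / 4) := by field_simp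
      _ ≤ 1 * (ε / 4) := by
          refine mul_le_mul_of_nonneg_right ?_ (by positivity)
          rw [div_le_one (by linarith)]; linarith
      _ = _ := one_mul _
  linarith [h3.2, h2.2]

theorem parallelogram {w : ℕ → ℝ} (hw : ∀ k, 0 ≤ w k) {u v : PowerSeries ℂ} (hu : InH w u)
    (hv : InH w v) : nsq w (u + v) + nsq w (u - v) = 2 * nsq w u + 2 * nsq w v := by
  have h1 := (InH.add hw hu hv).1
  have h2 := (InH.sub hw hu hv).1
  unfold nsq
  rw [← tsum_mul_left, ← tsum_mul_left, ← h1.tsum_add h2,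
    ← (hu.mul_left 2).tsum_add (hv.mul_left 2)]
  refine tsum_congr fun k => ?_
  have h3 := parallelogram_law_with_norm ℝ (coeff k u) (coeff k v)
  rw [map_add, map_sub]
  have h4 := congrArg (· * w k) h3
  linarith

theorem nsq_zero_iff {w : ℕ → ℝ} (hw : ∀ k, 0 < w k) {u : PowerSeries ℂ} (hu : InH w u)
    (h : nsq w u ≤ 0) : u = 0 := by
  ext k
  have h1 := hu.le_tsum k (fun j _ => mul_nonneg (sq_nonneg _) (hw j).le)
  have h2 : ‖coeff k u‖ ^ 2 * w k ≤ 0 := h1.trans h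
  have h3 := hw k
  have h4 : ‖coeff k u‖ ^ 2 ≤ 0 := by
    by_contra hcon
    push Not at hcon
    have := mul_pos hcon h3
    linarith
  have h5 : ‖coeff k u‖ = 0 := by
    have := sq_nonneg ‖coeff k u‖
    exact pow_eq_zero_iff (two_ne_zero) |>.1 (le_antisymm h4 this)
  simpa using norm_eq_zero.1 h5

theorem OPA_unique {f : PowerSeries ℂ} (hf : InH wt f) (hf0 : f ≠ 0) (n : ℕ) :
    ∃! q, IsOPA wt f n q := by
  obtain ⟨q, hq⟩ := exists_OPA hw0 hm' hf n
  refine ⟨q, hq, fun q' hq' => ?_⟩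
  have hin : ∀ p : Polynomial ℂ, InH wt ((p : PowerSeries ℂ) * f - 1) := fun p => by
    obtain ⟨K, _, hK⟩ := InH.mul_poly hw0 hm' p
    exact (InH.sub hw0 (hK f hf).1 InH.one).1
  have heq : nsq wt ((q' : PowerSeries ℂ) * f - 1) = nsq wt ((q : PowerSeries ℂ) * f - 1) :=
    le_antisymm (hq'.2 q hq.1) (hq.2 q' hq'.1)
  set m : Polynomial ℂ := Polynomial.C (1 / 2) * (q' + q) with hm
  have hmdeg : m.natDegree ≤ n :=
    (Polynomial.natDegree_C_mul_le _ _).trans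
      ((Polynomial.natDegree_add_le _ _).trans (max_le hq'.1 hq.1))
  have h1 := hq.2 m hmdeg
  have h2 := parallelogram hw0 (hin q') (hin q)
  have h3 : ((q' : PowerSeries ℂ) * f - 1) + ((q : PowerSeries ℂ) * f - 1)
      = C 2 * ((m : PowerSeries ℂ) * f - 1) := by
    rw [hm, Polynomial.coe_mul, Polynomial.coe_C, Polynomial.coe_add]
    have e2 : (C (2 : ℂ) : PowerSeries ℂ) * C (1 / 2) = 1 := by
      rw [← map_mul]; norm_num
    have e3 : (C (2 : ℂ) : PowerSeries ℂ) = 2 := map_ofNat _ 2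
    calc ((q' : PowerSeries ℂ) * f - 1) + ((q : PowerSeries ℂ) * f - 1)
        = 1 * ((q' : PowerSeries ℂ) + (q : PowerSeries ℂ)) * f - 2 := by ring
      _ = (C (2 : ℂ) * C (1 / 2)) * ((q' : PowerSeries ℂ) + (q : PowerSeries ℂ)) * f - C 2 := by
          rw [e2, e3]
      _ = _ := by ring
  have h4 : nsq wt (C 2 * ((m : PowerSeries ℂ) * f - 1)) = 4 * nsq wt ((m : PowerSeries ℂ) * f - 1) := by
    unfold nsq
    rw [← tsum_mul_left]
    refine tsum_congr fun k => ?_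
    rw [coeff_C_mul, norm_mul, Complex.norm_ofNat]; ring
  rw [h3, h4, heq] at h2
  have h5 : nsq wt (((q' : PowerSeries ℂ) * f - 1) - ((q : PowerSeries ℂ) * f - 1)) ≤ 0 := by
    linarith
  have h6 := nsq_zero_iff wt_pos (InH.sub hw0 (hin q') (hin q)).1 h5
  have h7 : ((q' - q : Polynomial ℂ) : PowerSeries ℂ) * f = 0 := by
    rw [Polynomial.coe_sub, ← h6]; ring
  rcases mul_eq_zero.1 h7 with h8 | h8
  · have : q' - q = 0 := by
      apply Polynomial.coe_injective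
      rw [h8, Polynomial.coe_zero]
    exact sub_eq_zero.1 this
  · exact absurd h8 hf0

theorem main : ∃ w : ℕ → ℝ, IsWeight w ∧ ∃ f : PowerSeries ℂ, Cyclic w f ∧
    (∀ z : ℂ, ‖z‖ < 1 → Summable fun k => coeff k f * z ^ k) ∧
    (∀ n, ∃! q, IsOPA w f n q) ∧
    ∀ ρ θ₁ θ₂ : ℝ, 0 < ρ → θ₁ < θ₂ →
      ∃ (n : ℕ) (q : Polynomial ℂ), IsOPA w f n q ∧ ∃ z ∈ Sector 1 ρ θ₁ θ₂, q.eval z = 0 := by
  -- an enumeration of the rational sectors
  let I : Type := {x : ℚ × ℚ × ℚ // 0 < x.1 ∧ x.2.1 < x.2.2}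
  haveI : Nonempty I := ⟨⟨(1, 0, 1), by norm_num, by norm_num⟩⟩
  haveI : Countable I := Subtype.countable
  obtain ⟨en, hen⟩ := exists_surjective_nat I
  obtain ⟨f, hf, hP⟩ := exists_limit
    (fun j => (((en j).1.1 : ℝ), ((en j).1.2.1 : ℝ), ((en j).1.2.2 : ℝ)))
    (fun j => by simpa using (en j).2.1) (fun j => by simpa using (en j).2.2)
  have hcyc : Cyclic wt f := by
    refine cyclic_of hf fun δ hδ => ?_
    obtain ⟨j, hj⟩ := exists_nat_one_div_lt hδ
    obtain ⟨p, hp⟩ := (hP j).2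
    exact ⟨p, hp.trans hj⟩
  have hf0 : f ≠ 0 := by
    rintro rfl
    obtain ⟨p, hp⟩ := hcyc.2 1 InH.one 1 one_pos
    rw [mul_zero, zero_sub, nsq_neg] at hp
    have h1 : nsq wt 1 = 1 := by
      unfold nsq
      rw [tsum_eq_single 0]
      · simp [wt]
      · intro k hk
        rw [coeff_one, if_neg hk]; simp
    linarith
  refine ⟨wt, wt_isWeight, f, hcyc, fun z hz => disk_summable wt_isWeight hf hz,
    fun n => OPA_unique hf hf0 n, fun ρ θ₁ θ₂ hρ hθ => ?_⟩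
  obtain ⟨r, hr0, hrρ⟩ := exists_rat_btwn hρ
  obtain ⟨a, ha1, ha2⟩ := exists_rat_btwn hθ
  obtain ⟨b, hb1, hb2⟩ := exists_rat_btwn ha2
  have hr0' : (0 : ℚ) < r := by exact_mod_cast hr0
  have hab : a < b := by exact_mod_cast hb1
  obtain ⟨j, hj⟩ := hen ⟨(r, a, b), hr0', hab⟩
  obtain ⟨n, hn⟩ := (hP j).1
  obtain ⟨q, hq⟩ := exists_OPA hw0 hm' hf n
  obtain ⟨z, ⟨s, θ, hs0, hs1, h1, h2, hz⟩, hz0⟩ := hn q hq
  rw [hj] at hs1 h1 h2
  simp only at hs1 h1 h2
  exact ⟨n, q, hq, z, ⟨s, θ, hs0, hs1.trans hrρ, ha1.trans h1, h2.trans hb2, hz⟩, hz0⟩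

end Pool.Agent.X214.OP
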