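import Pool.Agent.X214.OP.Abs

/-! The key estimates at one scale. -/

namespace Pool.Agent.X214.OP

open PowerSeries

/-- tail of the norm -/
noncomputable def tl (ρ : ℝ) (g : PowerSeries ℂ) (j : ℕ) : ℝ :=
  ∑' k, ‖coeff (k + j) g‖ * ρ ^ (k + j)

theorem tl_summable {ρ : ℝ} {g : PowerSeries ℂ} (hg : Ab ρ g) (j : ℕ) :
    Summable fun k => ‖coeff (k + j) g‖ * ρ ^ (k + j) :=
  (summable_nat_add_iff (f := fun k => ‖coeff k g‖ * ρ ^ k) j).2 hg

theorem tl_tendsto {ρ : ℝ} (g : PowerSeries ℂ) :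
    Filter.Tendsto (tl ρ g) Filter.atTop (nhds 0) :=
  tendsto_sum_nat_add fun k => ‖coeff k g‖ * ρ ^ k

theorem tl_le {ρ : ℝ} (hρ : 0 ≤ ρ) {g : PowerSeries ℂ} (hg : Ab ρ g) (j : ℕ) :
    tl ρ g j ≤ nm ρ g := by
  have h := Summable.sum_add_tsum_nat_add j hg
  unfold nm tl
  rw [← h]
  have : 0 ≤ ∑ i ∈ Finset.range j, ‖coeff i g‖ * ρ ^ i :=
    Finset.sum_nonneg fun i _ => by positivity
  linarith

theorem tl_nonneg {ρ : ℝ} (hρ : 0 ≤ ρ) (g : PowerSeries ℂ) (j : ℕ) : 0 ≤ tl ρ g j :=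
  tsum_nonneg fun k => by positivity

/-- series with inverse of the polynomial times the scale factor -/
noncomputable def Hs (g : PowerSeries ℂ) (a : ℂ) (M : ℕ) : PowerSeries ℂ :=
  (1 - C a * X ^ (2 * M)) * g

theorem Hs_coeff (g : PowerSeries ℂ) (a : ℂ) (M k : ℕ) :
    coeff (k + (3 * M + 1)) (Hs g a M)
      = coeff (k + (3 * M + 1)) g - a * coeff (k + (M + 1)) g := by
  unfold Hs
  rw [sub_mul, one_mul, map_sub, mul_assoc, coeff_C_mul]
  have : k + (3 * M + 1) = (k + (M + 1)) + 2 * M := by ring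
  conv_lhs => rw [this]
  rw [coeff_X_pow_mul, ← this]

theorem nm_fac {ρ : ℝ} (hρ : 0 ≤ ρ) (a : ℂ) (m : ℕ) :
    Ab ρ (1 - C a * X ^ m) ∧ nm ρ (1 - C a * X ^ m) ≤ 1 + ‖a‖ * ρ ^ m := by
  have h1 : (1 - C a * X ^ m : PowerSeries ℂ) = C 1 * X ^ 0 + C (-a) * X ^ m := by
    rw [map_neg, map_one, pow_zero]; ring
  rw [h1]
  have h2 := nm_term hρ (1 : ℂ) 0
  have h3 := nm_term hρ (-a) m
  have h4 := Ab.add hρ h2.1 h3.1
  refine ⟨h4.1, h4.2.trans ?_⟩
  rw [h2.2, h3.2]; simp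

theorem Hs_ab {ρ : ℝ} (hρ : 0 ≤ ρ) {g : PowerSeries ℂ} (hg : Ab ρ g) (a : ℂ) (M : ℕ) :
    Ab ρ (Hs g a M) := (Ab.mul hρ (nm_fac hρ a _).1 hg).1

theorem Hs_nm {ρ : ℝ} (hρ : 1 ≤ ρ) {g : PowerSeries ℂ} (hg : Ab ρ g) {a : ℂ} (ha : ‖a‖ ≤ 2)
    (M : ℕ) : nm 1 (Hs g a M) ≤ 3 * nm ρ g := by
  have h1 := hg.mono zero_le_one hρ
  refine (Ab.mul zero_le_one (nm_fac zero_le_one a _).1 h1.1).2.trans ?_
  refine mul_le_mul ?_ h1.2 (nm_nonneg zero_le_one g) (by norm_num)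
  refine (nm_fac zero_le_one a _).2.trans ?_
  rw [one_pow, mul_one]; linarith

theorem approx {R ρ : ℝ} (hR : 1 ≤ R) (hRρ : R ≤ ρ) {g : PowerSeries ℂ} (hg : Ab ρ g) {a : ℂ}
    (ha : ‖a‖ ≤ 2) {M : ℕ} (q : Polynomial ℂ) (hq : q.natDegree ≤ 3 * M)
    (r : PowerSeries ℂ)
    (hr : ∀ k < 3 * M + 1, coeff k (q : PowerSeries ℂ)
      = coeff k (Hs g a M) + coeff k (r * Hs g a M))
    {S : ℝ} (hS : ∑ i ∈ Finset.range (3 * M + 1), ‖coeff i r‖ ≤ S) {z : ℂ} (hz : ‖z‖ ≤ R) :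
    ‖q.eval z - ev z (Hs g a M)‖ ≤ R ^ (3 * M) * (S * (3 * nm ρ g))
      + (tl ρ g (3 * M + 1) + 2 * R ^ (2 * M) * tl ρ g (M + 1)) := by
  have hρ0 : 0 ≤ ρ := by linarith
  have hR0 : 0 ≤ R := by linarith
  have hH : Ab ρ (Hs g a M) := Hs_ab hρ0 hg a M
  have hH1 : Ab 1 (Hs g a M) := (hH.mono zero_le_one (hR.trans hRρ)).1
  set H := Hs g a M with hHdef
  set r' : PowerSeries ℂ := ((trunc (3 * M + 1) r : Polynomial ℂ) : PowerSeries ℂ) with hr'
  have hr1 : ∀ k < 3 * M + 1, coeff k (r * H) = coeff k (r' * H) := by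
    intro k hk
    rw [coeff_mul, coeff_mul]
    refine Finset.sum_congr rfl fun p hp => ?_
    rw [Finset.HasAntidiagonal.mem_antidiagonal] at hp
    rw [hr', coeff_coe_trunc_of_lt (by omega)]
  have hr'ab : Ab 1 r' := Ab.of_poly 1 _
  have hr'nm : nm 1 r' ≤ S := by
    unfold nm
    rw [tsum_eq_sum (s := Finset.range (3 * M + 1))]
    · refine le_trans (le_of_eq ?_) hS
      refine Finset.sum_congr rfl fun i hi => ?_
      rw [Finset.mem_range] at hi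
      rw [one_pow, mul_one, hr', coeff_coe_trunc_of_lt hi]
    · intro k hk
      rw [Finset.mem_range, not_lt] at hk
      rw [hr', Polynomial.coeff_coe, coeff_trunc, if_neg (by omega)]; simp
  have hprod := Ab.mul zero_le_one hr'ab hH1
  have hzρ : ‖z‖ ≤ ρ := hz.trans hRρ
  have hsum := (hH.ev_summable hzρ)
  have e1 : ev z H = ∑ k ∈ Finset.range (3 * M + 1), coeff k H * z ^ k
      + ∑' k, coeff (k + (3 * M + 1)) H * z ^ (k + (3 * M + 1)) :=
    (Summable.sum_add_tsum_nat_add (3 * M + 1) hsum.of_norm).symm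
  have e2 : q.eval z = ∑ k ∈ Finset.range (3 * M + 1), coeff k (q : PowerSeries ℂ) * z ^ k := by
    rw [Polynomial.eval_eq_sum_range' (by omega : q.natDegree < 3 * M + 1)]
    exact Finset.sum_congr rfl fun k _ => by rw [Polynomial.coeff_coe]
  have e3 : q.eval z - ev z H = ∑ k ∈ Finset.range (3 * M + 1), coeff k (r' * H) * z ^ k
      - ∑' k, coeff (k + (3 * M + 1)) H * z ^ (k + (3 * M + 1)) := by
    rw [e1, e2, ← sub_sub, ← Finset.sum_sub_distrib]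
    congr 1
    refine Finset.sum_congr rfl fun k hk => ?_
    rw [Finset.mem_range] at hk
    rw [hr k hk, hr1 k hk]; ring
  rw [e3]
  refine (norm_sub_le _ _).trans (add_le_add ?_ ?_)
  · calc ‖∑ k ∈ Finset.range (3 * M + 1), coeff k (r' * H) * z ^ k‖
        ≤ ∑ k ∈ Finset.range (3 * M + 1), ‖coeff k (r' * H) * z ^ k‖ := norm_sum_le _ _
      _ ≤ ∑ k ∈ Finset.range (3 * M + 1), R ^ (3 * M) * (‖coeff k (r' * H)‖ * 1 ^ k) := by
          refine Finset.sum_le_sum fun k hk => ?_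
          rw [Finset.mem_range] at hk
          rw [norm_mul, norm_pow, one_pow, mul_one, mul_comm]
          refine mul_le_mul_of_nonneg_right ?_ (norm_nonneg _)
          exact (pow_le_pow_left₀ (norm_nonneg _) hz k).trans
            (pow_le_pow_right₀ hR (by omega))
      _ = R ^ (3 * M) * ∑ k ∈ Finset.range (3 * M + 1), (‖coeff k (r' * H)‖ * 1 ^ k) := by
          rw [Finset.mul_sum]
      _ ≤ R ^ (3 * M) * nm 1 (r' * H) := by
          refine mul_le_mul_of_nonneg_left ?_ (by positivity)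
          exact hprod.1.sum_le_tsum _ (fun i _ => by positivity)
      _ ≤ R ^ (3 * M) * (S * (3 * nm ρ g)) := by
          refine mul_le_mul_of_nonneg_left ?_ (by positivity)
          refine hprod.2.trans ?_
          exact mul_le_mul hr'nm (Hs_nm (hR.trans hRρ) hg ha M) (nm_nonneg zero_le_one _)
            ((nm_nonneg zero_le_one _).trans hr'nm)
  · have hs := (summable_nat_add_iff (f := fun k => ‖coeff k H * z ^ k‖) (3 * M + 1)).2 hsum
    refine (norm_tsum_le_tsum_norm hs).trans ?_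
    have hb : ∀ k, ‖coeff (k + (3 * M + 1)) H * z ^ (k + (3 * M + 1))‖
        ≤ ‖coeff (k + (3 * M + 1)) g‖ * ρ ^ (k + (3 * M + 1))
          + 2 * R ^ (2 * M) * (‖coeff (k + (M + 1)) g‖ * ρ ^ (k + (M + 1))) := by
      intro k
      rw [norm_mul, norm_pow, hHdef, Hs_coeff]
      have h1 : ‖coeff (k + (3 * M + 1)) g - a * coeff (k + (M + 1)) g‖
          ≤ ‖coeff (k + (3 * M + 1)) g‖ + 2 * ‖coeff (k + (M + 1)) g‖ := by
        refine (norm_sub_le _ _).trans ?_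
        rw [norm_mul]
        have := mul_le_mul_of_nonneg_right ha (norm_nonneg (coeff (k + (M + 1)) g))
        linarith
      have h2 : ‖z‖ ^ (k + (3 * M + 1)) ≤ R ^ (k + (3 * M + 1)) :=
        pow_le_pow_left₀ (norm_nonneg _) hz _
      have h3 : R ^ (k + (3 * M + 1)) ≤ ρ ^ (k + (3 * M + 1)) := pow_le_pow_left₀ hR0 hRρ _
      have h4 : R ^ (k + (3 * M + 1)) = R ^ (2 * M) * R ^ (k + (M + 1)) := by
        rw [← pow_add]; congr 1; ring
      have h5 : R ^ (k + (M + 1)) ≤ ρ ^ (k + (M + 1)) := pow_le_pow_left₀ hR0 hRρ _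
      calc ‖coeff (k + (3 * M + 1)) g - a * coeff (k + (M + 1)) g‖ * ‖z‖ ^ (k + (3 * M + 1))
          ≤ (‖coeff (k + (3 * M + 1)) g‖ + 2 * ‖coeff (k + (M + 1)) g‖)
              * R ^ (k + (3 * M + 1)) := by
            exact mul_le_mul h1 h2 (by positivity) (by positivity)
        _ = ‖coeff (k + (3 * M + 1)) g‖ * R ^ (k + (3 * M + 1))
            + 2 * R ^ (2 * M) * (‖coeff (k + (M + 1)) g‖ * R ^ (k + (M + 1))) := by
            rw [h4]; ring
        _ ≤ _ := by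
            refine add_le_add (mul_le_mul_of_nonneg_left h3 (norm_nonneg _)) ?_
            refine mul_le_mul_of_nonneg_left ?_ (by positivity)
            exact mul_le_mul_of_nonneg_left h5 (norm_nonneg _)
    have hs2 := (tl_summable hg (3 * M + 1)).add ((tl_summable hg (M + 1)).mul_left
      (2 * R ^ (2 * M)))
    refine (hs.tsum_le_tsum hb hs2).trans (le_of_eq ?_)
    rw [(tl_summable hg (3 * M + 1)).tsum_add ((tl_summable hg (M + 1)).mul_left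
      (2 * R ^ (2 * M))), tsum_mul_left]
    rfl

theorem Hs_tail {ρ : ℝ} (hρ : 1 ≤ ρ) {g : PowerSeries ℂ} (hg : Ab ρ g) {a : ℂ}
    (ha : ‖a‖ ≤ 2) (M : ℕ) :
    Ab 1 (Hs g a M - (trunc (3 * M + 1) (Hs g a M) : Polynomial ℂ)) ∧
    (∀ k < 3 * M + 1,
      coeff k (Hs g a M - ((trunc (3 * M + 1) (Hs g a M) : Polynomial ℂ) : PowerSeries ℂ)) = 0) ∧
    nm 1 (Hs g a M - (trunc (3 * M + 1) (Hs g a M) : Polynomial ℂ)) ≤ 3 * nm ρ g / ρ ^ M := by
  have hρ0 : 0 < ρ := by linarith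
  have hH1 : Ab 1 (Hs g a M) := ((Hs_ab hρ0.le hg a M).mono zero_le_one hρ).1
  set H := Hs g a M with hHdef
  have hz : ∀ k < 3 * M + 1,
      coeff k (H - ((trunc (3 * M + 1) H : Polynomial ℂ) : PowerSeries ℂ)) = 0 := by
    intro k hk
    rw [map_sub, coeff_coe_trunc_of_lt hk, sub_self]
  have hc : ∀ k, coeff (k + (3 * M + 1))
      (H - ((trunc (3 * M + 1) H : Polynomial ℂ) : PowerSeries ℂ))
      = coeff (k + (3 * M + 1)) g - a * coeff (k + (M + 1)) g := by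
    intro k
    rw [map_sub, Polynomial.coeff_coe, coeff_trunc, if_neg (by omega), sub_zero, hHdef, Hs_coeff]
  have hab : Ab 1 (H - ((trunc (3 * M + 1) H : Polynomial ℂ) : PowerSeries ℂ)) := by
    rw [sub_eq_add_neg, ← Polynomial.coe_neg]
    exact (Ab.add zero_le_one hH1 (Ab.of_poly 1 _)).1
  refine ⟨hab, hz, ?_⟩
  have h1 := Summable.sum_add_tsum_nat_add (3 * M + 1) hab
  unfold nm at *
  rw [← h1, Finset.sum_eq_zero, zero_add]
  · have hpos : 0 < ρ ^ M := pow_pos hρ0 M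
    have key : ∀ j k, M ≤ j → ‖coeff (k + j) g‖ ≤ (ρ ^ M)⁻¹ * (‖coeff (k + j) g‖ * ρ ^ (k + j)) := by
      intro j k hj
      have h2 : ρ ^ M ≤ ρ ^ (k + j) := pow_le_pow_right₀ hρ (by omega)
      rw [inv_mul_eq_div, le_div_iff₀ hpos]
      exact mul_le_mul_of_nonneg_left h2 (norm_nonneg _)
    have hb : ∀ k, ‖coeff (k + (3 * M + 1))
        (H - ((trunc (3 * M + 1) H : Polynomial ℂ) : PowerSeries ℂ))‖ * 1 ^ (k + (3 * M + 1))
        ≤ (ρ ^ M)⁻¹ * (‖coeff (k + (3 * M + 1)) g‖ * ρ ^ (k + (3 * M + 1)))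
          + 2 * (ρ ^ M)⁻¹ * (‖coeff (k + (M + 1)) g‖ * ρ ^ (k + (M + 1))) := by
      intro k
      rw [one_pow, mul_one, hc]
      refine (norm_sub_le _ _).trans ?_
      rw [norm_mul]
      have h3 := key (3 * M + 1) k (by omega)
      have h4 := key (M + 1) k (by omega)
      have h5 := mul_le_mul_of_nonneg_right ha (norm_nonneg (coeff (k + (M + 1)) g))
      linarith
    have hs2 := ((tl_summable hg (3 * M + 1)).mul_left (ρ ^ M)⁻¹).add
      ((tl_summable hg (M + 1)).mul_left (2 * (ρ ^ M)⁻¹))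
    have hs1 := (summable_nat_add_iff (f := fun k => ‖coeff k
      (H - ((trunc (3 * M + 1) H : Polynomial ℂ) : PowerSeries ℂ))‖ * 1 ^ k) (3 * M + 1)).2 hab
    refine (hs1.tsum_le_tsum hb hs2).trans ?_
    rw [((tl_summable hg (3 * M + 1)).mul_left (ρ ^ M)⁻¹).tsum_add
      ((tl_summable hg (M + 1)).mul_left (2 * (ρ ^ M)⁻¹)), tsum_mul_left, tsum_mul_left]
    have h6 := tl_le hρ0.le hg (3 * M + 1)
    have h7 := tl_le hρ0.le hg (M + 1)
    unfold tl nm at h6 h7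
    have h8 : 0 ≤ (ρ ^ M)⁻¹ := by positivity
    rw [div_eq_mul_inv]
    nlinarith [mul_le_mul_of_nonneg_left h6 h8, mul_le_mul_of_nonneg_left h7 h8]
  · intro k hk
    rw [Finset.mem_range] at hk
    rw [hz k hk]; simp

/-- the perturbed polynomial -/
noncomputable def Gn (G : Polynomial ℂ) (a : ℂ) (M : ℕ) : Polynomial ℂ :=
  G * ((1 + Polynomial.C (a / 2) * Polynomial.X ^ (2 * M))
    * (1 + Polynomial.C (a / 2) * Polynomial.X ^ (2 * M)))

theorem Gn_coe (G : Polynomial ℂ) (a : ℂ) (M : ℕ) :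
    (Gn G a M : PowerSeries ℂ) = (G : PowerSeries ℂ) * ((1 + C (a / 2) * X ^ (2 * M))
      * (1 + C (a / 2) * X ^ (2 * M))) := by
  unfold Gn
  simp only [Polynomial.coe_mul, Polynomial.coe_add, Polynomial.coe_one, Polynomial.coe_C,
    Polynomial.coe_pow, Polynomial.coe_X]

theorem Gn_Hs {G : Polynomial ℂ} {g : PowerSeries ℂ} (hg : (G : PowerSeries ℂ) * g = 1) (a : ℂ)
    (M : ℕ) : (Gn G a M : PowerSeries ℂ) * Hs g a M - 1
      = C (-(3 * a ^ 2 / 4)) * X ^ (4 * M) + C (-(a ^ 3 / 4)) * X ^ (6 * M) := by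
  rw [Gn_coe]
  unfold Hs
  have h1 : (G : PowerSeries ℂ) * ((1 + C (a / 2) * X ^ (2 * M))
      * (1 + C (a / 2) * X ^ (2 * M))) * ((1 - C a * X ^ (2 * M)) * g)
      = ((G : PowerSeries ℂ) * g) * ((1 + C (a / 2) * X ^ (2 * M))
      * (1 + C (a / 2) * X ^ (2 * M)) * (1 - C a * X ^ (2 * M))) := by ring
  rw [h1, hg, one_mul]
  have h4 : (X : PowerSeries ℂ) ^ (4 * M) = (X ^ (2 * M)) ^ 2 := by rw [← pow_mul]; congr 1; ring
  have h6 : (X : PowerSeries ℂ) ^ (6 * M) = (X ^ (2 * M)) ^ 3 := by rw [← pow_mul]; congr 1; ring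
  rw [h4, h6]
  set y : PowerSeries ℂ := X ^ (2 * M)
  have ha : (C a : PowerSeries ℂ) = 2 * C (a / 2) := by
    rw [← map_ofNat (C : ℂ →+* PowerSeries ℂ) 2, ← map_mul]; congr 1; ring
  have h2 : (C (-(3 * a ^ 2 / 4)) : PowerSeries ℂ) = -3 * C (a / 2) ^ 2 := by
    rw [← map_pow, ← map_ofNat (C : ℂ →+* PowerSeries ℂ) 3, ← map_neg, ← map_mul]
    congr 1; ring
  have h3 : (C (-(a ^ 3 / 4)) : PowerSeries ℂ) = -2 * C (a / 2) ^ 3 := by
    rw [← map_pow, ← map_ofNat (C : ℂ →+* PowerSeries ℂ) 2, ← map_neg, ← map_mul]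
    congr 1; ring
  rw [h2, h3, ha]
  ring

theorem Gn_good {G : Polynomial ℂ} (hG : Good G) {a : ℂ} (ha : ‖a‖ < 2) {M : ℕ} (hM : 0 < M) :
    Good (Gn G a M) := by
  have hb : ‖a / 2‖ < 1 := by
    rw [norm_div]; simp; linarith
  exact hG.mul ((Good.basic hb (by omega)).mul (Good.basic hb (by omega)))

theorem Gn_sub (G : Polynomial ℂ) (a : ℂ) (M : ℕ) :
    ((Gn G a M - G : Polynomial ℂ) : PowerSeries ℂ) = (G : PowerSeries ℂ) *
      (X ^ (2 * M) * (C a + C (a ^ 2 / 4) * X ^ (2 * M))) := by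
  rw [Polynomial.coe_sub, Gn_coe]
  have h2 : (C (a ^ 2 / 4) : PowerSeries ℂ) = C (a / 2) ^ 2 := by
    rw [← map_pow]; congr 1; ring
  have ha : (C a : PowerSeries ℂ) = 2 * C (a / 2) := by
    rw [← map_ofNat (C : ℂ →+* PowerSeries ℂ) 2, ← map_mul]; congr 1; ring
  rw [h2, ha]
  ring

theorem Gn_nm (G : Polynomial ℂ) {a : ℂ} (ha : ‖a‖ ≤ 2) (M : ℕ) :
    nm 1 (Gn G a M : PowerSeries ℂ) ≤ 4 * nm 1 (G : PowerSeries ℂ) := by
  rw [Gn_coe]
  have h1 : Ab 1 (1 + C (a / 2) * X ^ (2 * M)) ∧ nm 1 (1 + C (a / 2) * X ^ (2 * M)) ≤ 2 := by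
    have := nm_fac zero_le_one (-(a / 2)) (2 * M)
    rw [map_neg, neg_mul, sub_neg_eq_add] at this
    refine ⟨this.1, this.2.trans ?_⟩
    rw [one_pow, mul_one, norm_neg, norm_div]
    simp; linarith
  have h2 := Ab.mul zero_le_one h1.1 h1.1
  refine (Ab.mul zero_le_one (Ab.of_poly 1 G) h2.1).2.trans ?_
  have h3 : nm 1 ((1 + C (a / 2) * X ^ (2 * M)) * (1 + C (a / 2) * X ^ (2 * M)) : PowerSeries ℂ)
      ≤ 2 * 2 := h2.2.trans (mul_le_mul h1.2 h1.2 (nm_nonneg zero_le_one _) (by norm_num))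
  have h4 := nm_nonneg zero_le_one (G : PowerSeries ℂ)
  nlinarith

theorem cand {w : ℕ → ℝ} (hw : ∀ k, 0 ≤ w k) (hm : Antitone w) {ρ : ℝ} (hρ : 1 ≤ ρ)
    {G : Polynomial ℂ} {g : PowerSeries ℂ}
    (hg : (G : PowerSeries ℂ) * g = 1) (hab : Ab ρ g) {a : ℂ} (ha : ‖a‖ ≤ 2) {M : ℕ} (hM : 0 < M) :
    InH w (((trunc (3 * M + 1) (Hs g a M) : Polynomial ℂ) : PowerSeries ℂ) * (Gn G a M) - 1) ∧
    nsq w (((trunc (3 * M + 1) (Hs g a M) : Polynomial ℂ) : PowerSeries ℂ) * (Gn G a M) - 1)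
      ≤ 50 * w (4 * M) + 2 * (w (3 * M) *
        (12 * nm ρ g * nm 1 (G : PowerSeries ℂ) / ρ ^ M) ^ 2) := by
  have hρ0 : 0 < ρ := by linarith
  obtain ⟨t1, t2, t3⟩ := Hs_tail hρ hab ha M
  set H := Hs g a M with hH
  set q0 : PowerSeries ℂ := ((trunc (3 * M + 1) H : Polynomial ℂ) : PowerSeries ℂ) with hq0
  have e : q0 * (Gn G a M : PowerSeries ℂ) - 1
      = ((Gn G a M : PowerSeries ℂ) * H - 1) - (H - q0) * (Gn G a M : PowerSeries ℂ) := by ring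
  have hu := Ab.mul zero_le_one t1 (Ab.of_poly 1 (Gn G a M))
  have hu0 : ∀ k < 3 * M + 1, coeff k ((H - q0) * (Gn G a M : PowerSeries ℂ)) = 0 := by
    intro k hk
    rw [coeff_mul]
    refine Finset.sum_eq_zero fun p hp => ?_
    rw [Finset.HasAntidiagonal.mem_antidiagonal] at hp
    rw [t2 p.1 (by omega), zero_mul]
  have hB := nsq_le hw hm hu.1 (3 * M + 1) hu0
  have hv1 := nm_term zero_le_one (-(3 * a ^ 2 / 4)) (4 * M)
  have hv2 := nm_term zero_le_one (-(a ^ 3 / 4)) (6 * M)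
  have hv := Ab.add zero_le_one hv1.1 hv2.1
  have hvn : nm 1 (C (-(3 * a ^ 2 / 4)) * X ^ (4 * M) + C (-(a ^ 3 / 4)) * X ^ (6 * M)) ≤ 5 := by
    refine hv.2.trans ?_
    rw [hv1.2, hv2.2, one_pow, one_pow, mul_one, mul_one, norm_neg, norm_neg, norm_div, norm_div,
      norm_mul, norm_pow, norm_pow]
    have h1 : ‖a‖ ^ 2 ≤ 2 ^ 2 := pow_le_pow_left₀ (norm_nonneg _) ha 2
    have h2 : ‖a‖ ^ 3 ≤ 2 ^ 3 := pow_le_pow_left₀ (norm_nonneg _) ha 3
    simp only [Complex.norm_ofNat]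
    linarith
  have hv0 : ∀ k < 4 * M, coeff k (C (-(3 * a ^ 2 / 4)) * X ^ (4 * M)
      + C (-(a ^ 3 / 4)) * X ^ (6 * M) : PowerSeries ℂ) = 0 := by
    intro k hk
    rw [map_add, coeff_C_mul, coeff_C_mul, coeff_X_pow, coeff_X_pow, if_neg (by omega),
      if_neg (by omega)]
    simp
  have hA := nsq_le hw hm hv.1 (4 * M) hv0
  rw [e, Gn_Hs hg]
  have hfin := InH.sub hw hA.1 hB.1
  refine ⟨hfin.1, hfin.2.trans ?_⟩
  have h1 : nsq w (C (-(3 * a ^ 2 / 4)) * X ^ (4 * M) + C (-(a ^ 3 / 4)) * X ^ (6 * M))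
      ≤ w (4 * M) * 5 ^ 2 := by
    refine hA.2.trans (mul_le_mul_of_nonneg_left ?_ (hw _))
    exact pow_le_pow_left₀ (nm_nonneg zero_le_one _) hvn 2
  have h2 : nsq w ((H - q0) * (Gn G a M : PowerSeries ℂ))
      ≤ w (3 * M) * (12 * nm ρ g * nm 1 (G : PowerSeries ℂ) / ρ ^ M) ^ 2 := by
    refine hB.2.trans ?_
    refine mul_le_mul (hm (by omega)) ?_ (sq_nonneg _) (hw _)
    refine pow_le_pow_left₀ (nm_nonneg zero_le_one _) ?_ 2
    refine hu.2.trans ?_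
    have h3 := mul_le_mul t3 (Gn_nm G ha M) (nm_nonneg zero_le_one _)
      (by have := nm_nonneg hρ0.le g; positivity)
    refine h3.trans (le_of_eq ?_)
    ring
  linarith

end Pool.Agent.X214.OP
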