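import Pool.Agent.X214.OP.StepB

/-! The construction of the function. -/

namespace Pool.Agent.X214.OP

open PowerSeries Filter

/-- a weight: `w 0 = 1`, `w k > 0` and `w k / w (k + 1) → 1` -/
def IsWeight (w : ℕ → ℝ) : Prop :=
  w 0 = 1 ∧ (∀ k, 0 < w k) ∧ Tendsto (fun k => w k / w (k + 1)) atTop (nhds 1)

/-- `f` is cyclic in `H^2_w`: it lies in the space and its polynomial multiples are dense -/
def Cyclic (w : ℕ → ℝ) (f : PowerSeries ℂ) : Prop :=
  InH w f ∧ ∀ g : PowerSeries ℂ, InH w g → ∀ ε : ℝ, 0 < ε →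
    ∃ p : Polynomial ℂ, nsq w ((p : PowerSeries ℂ) * f - g) < ε

theorem wt_isWeight : IsWeight wt := by
  refine ⟨by simp [wt], wt_pos, ?_⟩
  have h1 : ∀ k : ℕ, wt k / wt (k + 1) = Real.exp (Real.sqrt ((k : ℝ) + 1) - Real.sqrt k) := by
    intro k
    unfold wt
    rw [← Real.exp_sub]
    congr 1
    push_cast
    ring
  have h2 : Tendsto (fun k : ℕ => Real.sqrt ((k : ℝ) + 1) - Real.sqrt k) atTop (nhds 0) := by
    have h3 : Tendsto (fun k : ℕ => 1 / Real.sqrt ((k : ℝ) + 1)) atTop (nhds 0) := by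
      have h4 : Tendsto (fun k : ℕ => Real.sqrt ((k : ℝ) + 1)) atTop atTop :=
        Real.tendsto_sqrt_atTop.comp (tendsto_atTop_add_const_right _ _ tendsto_natCast_atTop_atTop)
      simpa [one_div, Function.comp_def] using tendsto_inv_atTop_zero.comp h4
    refine squeeze_zero (fun k => ?_) (fun k => ?_) h3
    · have := Real.sqrt_le_sqrt (by linarith : (k : ℝ) ≤ (k : ℝ) + 1)
      linarith
    · have hp : 0 < Real.sqrt ((k : ℝ) + 1) := Real.sqrt_pos.2 (by positivity)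
      rw [le_div_iff₀ hp]
      have h5 := Real.sqrt_nonneg (k : ℝ)
      have h6 : Real.sqrt ((k : ℝ) + 1) ^ 2 = (k : ℝ) + 1 := Real.sq_sqrt (by positivity)
      have h7 : Real.sqrt (k : ℝ) ^ 2 = (k : ℝ) := Real.sq_sqrt (by positivity)
      have h8 := Real.sqrt_le_sqrt (by linarith : (k : ℝ) ≤ (k : ℝ) + 1)
      nlinarith
  have h3 := (Real.continuous_exp.tendsto 0).comp h2
  rw [Real.exp_zero] at h3
  exact h3.congr fun k => (h1 k).symm

theorem hw0 : ∀ k, 0 ≤ wt k := fun k => (wt_pos k).le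

theorem hm' : ∀ k, wt (k + 1) ≤ wt k := fun k => wt_anti (Nat.le_succ k)

theorem cyc {G : Polynomial ℂ} (hG : Good G) {δ : ℝ} (hδ : 0 < δ) :
    ∃ ε : ℝ, 0 < ε ∧ ∀ f : PowerSeries ℂ, InH wt (f - G) → nsq wt (f - G) ≤ ε →
      ∃ p : Polynomial ℂ, nsq wt ((p : PowerSeries ℂ) * f - 1) < δ := by
  obtain ⟨g, hg, ρ, hρ, hab⟩ := hG
  have hρ0 : 0 < ρ := by linarith
  set Q := 12 * nm ρ g * nm 1 (G : PowerSeries ℂ) with hQ
  have T : Tendsto (fun M : ℕ => 50 * wt (4 * M) + 2 * (wt (3 * M) * Q ^ 2)) atTop (nhds 0) := by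
    have h3 : Tendsto (fun M : ℕ => 3 * M) atTop atTop :=
      tendsto_atTop_mono (fun M => by simp only [id]; omega) tendsto_id
    have h4 : Tendsto (fun M : ℕ => 4 * M) atTop atTop :=
      tendsto_atTop_mono (fun M => by simp only [id]; omega) tendsto_id
    have := ((wt_tendsto.comp h4).const_mul 50).add
      (((wt_tendsto.comp h3).mul_const (Q ^ 2)).const_mul 2)
    simpa using this
  obtain ⟨M, hM, hM0⟩ := ((T.eventually_lt_const (by linarith : 0 < δ / 4)).and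
    (eventually_gt_atTop 0)).exists
  have hGn : Gn G 0 M = G := by unfold Gn; simp
  obtain ⟨c1, c2⟩ := cand hw0 wt_anti hρ.le hg hab (a := 0) (by simp) hM0
  rw [hGn] at c1 c2
  set q0 : Polynomial ℂ := trunc (3 * M + 1) (Hs g 0 M) with hq0
  obtain ⟨K, hK, hKm⟩ := InH.mul_poly hw0 hm' q0
  refine ⟨δ / (4 * (K + 1)), by positivity, fun f hf1 hf2 => ⟨q0, ?_⟩⟩
  have hdec : (q0 : PowerSeries ℂ) * f - 1
      = ((q0 : PowerSeries ℂ) * G - 1) + (q0 : PowerSeries ℂ) * (f - G) := by ring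
  have h1 := hKm _ hf1
  have h2 := InH.add hw0 c1 h1.1
  rw [← hdec] at h2
  have h3 : K * nsq wt (f - G) ≤ δ / 4 := by
    calc K * nsq wt (f - G) ≤ K * (δ / (4 * (K + 1))) := mul_le_mul_of_nonneg_left hf2 hK
      _ = (K / (K + 1)) * (δ / 4) := by field_simp
      _ ≤ 1 * (δ / 4) := by
          refine mul_le_mul_of_nonneg_right ?_ (by positivity)
          rw [div_le_one (by linarith)]; linarith
      _ = _ := one_mul _
  have h4 : wt (3 * M) * (Q / ρ ^ M) ^ 2 ≤ wt (3 * M) * Q ^ 2 := by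
    refine mul_le_mul_of_nonneg_left ?_ (hw0 _)
    have hQ0 : 0 ≤ Q := by
      have := nm_nonneg hρ0.le g
      have := nm_nonneg zero_le_one (G : PowerSeries ℂ)
      positivity
    refine pow_le_pow_left₀ (by positivity) ?_ 2
    exact div_le_self hQ0 (one_le_pow₀ hρ.le)
  linarith [h2.2, h1.2]

/-- the property obtained at stage `j` -/
def Pj (σ : ℝ × ℝ × ℝ) (δ : ℝ) (f : PowerSeries ℂ) : Prop :=
  (∃ n, ∀ q, IsOPA wt f n q → ∃ z ∈ Sector 1 σ.1 σ.2.1 σ.2.2, q.eval z = 0) ∧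
  ∃ p : Polynomial ℂ, nsq wt ((p : PowerSeries ℂ) * f - 1) < δ

/-- states of the recursion -/
def St : Type := {x : Polynomial ℂ × ℕ × ℝ // Good x.1 ∧ 0 < x.2.2}

/-- relation between successive states -/
def Rj (σ : ℝ × ℝ × ℝ) (δ : ℝ) (S S' : St) : Prop :=
  (X : PowerSeries ℂ) ^ S.1.2.1 ∣ (S'.1.1 : PowerSeries ℂ) - S.1.1 ∧
  nsq wt ((S'.1.1 : PowerSeries ℂ) - S.1.1) ≤ S.1.2.2 / 4 ∧
  S.1.2.1 < S'.1.2.1 ∧ S'.1.2.2 ≤ S.1.2.2 / 4 ∧
  ∀ f : PowerSeries ℂ, (X : PowerSeries ℂ) ^ S'.1.2.1 ∣ f - S'.1.1 → InH wt (f - S'.1.1) →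
    nsq wt (f - S'.1.1) ≤ S'.1.2.2 → Pj σ δ f

theorem exists_next {σ : ℝ × ℝ × ℝ} (hσ1 : 0 < σ.1) (hσ2 : σ.2.1 < σ.2.2) {δ : ℝ} (hδ : 0 < δ)
    (S : St) : ∃ S' : St, Rj σ δ S S' := by
  obtain ⟨⟨G, N, ε⟩, hG, hε⟩ := S
  simp only at hG hε
  obtain ⟨G', hG', hd, hn, N', hN', ε1, hε1, n, hz⟩ := step hG N (by linarith : 0 < ε / 4) hσ2 hσ1
  obtain ⟨ε2, hε2, hc⟩ := cyc hG' hδ
  refine ⟨⟨(G', N', min (min ε1 ε2) (ε / 4)), hG', ?_⟩, hd, hn, hN', min_le_right _ _, ?_⟩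
  · simp only
    exact lt_min (lt_min hε1 hε2) (by linarith)
  · intro f h1 h2 h3
    simp only at h1 h2 h3
    exact ⟨⟨n, hz f h1 h2 (h3.trans ((min_le_left _ _).trans (min_le_left _ _)))⟩,
      hc f h2 (h3.trans ((min_le_left _ _).trans (min_le_right _ _)))⟩

theorem exists_limit (σ : ℕ → ℝ × ℝ × ℝ) (hσ1 : ∀ j, 0 < (σ j).1)
    (hσ2 : ∀ j, (σ j).2.1 < (σ j).2.2) :
    ∃ f : PowerSeries ℂ, InH wt f ∧ ∀ j : ℕ, Pj (σ j) (1 / ((j : ℝ) + 1)) f := by
  have hstep : ∀ (j : ℕ) (S : St), ∃ S' : St, Rj (σ j) (1 / ((j : ℝ) + 1)) S S' :=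
    fun j S => exists_next (hσ1 j) (hσ2 j) (by positivity) S
  choose nxt hnxt using hstep
  let S0 : St := ⟨(1, 0, 1), Good.one, by norm_num⟩
  let sq : ℕ → St := fun j => Nat.rec S0 (fun j S => nxt j S) j
  have hR : ∀ j, Rj (σ j) (1 / ((j : ℝ) + 1)) (sq j) (sq (j + 1)) := fun j => hnxt j _
  set G : ℕ → Polynomial ℂ := fun j => (sq j).1.1 with hGdef
  set N : ℕ → ℕ := fun j => (sq j).1.2.1 with hNdef
  set e : ℕ → ℝ := fun j => (sq j).1.2.2 with hedef
  have hepos : ∀ j, 0 < e j := fun j => (sq j).2.2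
  have hNmono : StrictMono N := strictMono_nat_of_lt_succ fun j => (hR j).2.2.1
  have hNj : ∀ j, j ≤ N j := hNmono.id_le
  have hdvd : ∀ d j, (X : PowerSeries ℂ) ^ N j ∣ (G (j + d) : PowerSeries ℂ) - G j := by
    intro d
    induction d with
    | zero => intro j; simp
    | succ d ih =>
      intro j
      have h1 := ih j
      have h2 : (X : PowerSeries ℂ) ^ N (j + d) ∣ (G (j + d + 1) : PowerSeries ℂ) - G (j + d) :=
        (hR (j + d)).1
      have h3 : (X : PowerSeries ℂ) ^ N j ∣ (G (j + d + 1) : PowerSeries ℂ) - G (j + d) :=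
        (pow_dvd_pow _ (hNmono.monotone (by omega))).trans h2
      have h4 := dvd_add h3 h1
      rw [sub_add_sub_cancel] at h4
      exact h4
  have hInsub : ∀ i j, InH wt ((G i : PowerSeries ℂ) - G j) := fun i j =>
    (InH.sub hw0 (InH.of_poly _) (InH.of_poly _)).1
  have hns : ∀ d j, nsq wt ((G (j + d) : PowerSeries ℂ) - G j) ≤ e j := by
    intro d
    induction d with
    | zero => intro j; simp only [add_zero, sub_self]; simp [nsq, (hepos j).le]
    | succ d ih =>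
      intro j
      have h1 := ih (j + 1)
      have h2 : nsq wt ((G (j + 1) : PowerSeries ℂ) - G j) ≤ e j / 4 := (hR j).2.1
      have h3 : e (j + 1) ≤ e j / 4 := (hR j).2.2.2.1
      have h4 := InH.add hw0 (hInsub (j + 1 + d) (j + 1)) (hInsub (j + 1) j)
      rw [sub_add_sub_cancel] at h4
      have h5 : j + (d + 1) = j + 1 + d := by ring
      rw [h5]
      linarith [h4.2, hepos j]
  let f : PowerSeries ℂ := PowerSeries.mk fun k => coeff k (G (k + 1) : PowerSeries ℂ)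
  have hstab : ∀ i j k, k < N j → j ≤ i →
      coeff k (G i : PowerSeries ℂ) = coeff k (G j : PowerSeries ℂ) := by
    intro i j k hk hij
    obtain ⟨d, rfl⟩ := Nat.exists_eq_add_of_le hij
    have := X_pow_dvd_iff.1 (hdvd d j) k hk
    rwa [map_sub, sub_eq_zero] at this
  have hf : ∀ i k, k + 1 ≤ i → coeff k f = coeff k (G i : PowerSeries ℂ) := by
    intro i k hi
    rw [coeff_mk]
    exact (hstab i (k + 1) k (lt_of_lt_of_le (Nat.lt_succ_self k) (hNj (k + 1))) hi).symm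
  have hfd : ∀ j, (X : PowerSeries ℂ) ^ N j ∣ f - G j := by
    intro j
    rw [X_pow_dvd_iff]
    intro k hk
    rw [map_sub, hf (max (k + 1) j) k (le_max_left _ _),
      hstab (max (k + 1) j) j k hk (le_max_right _ _), sub_self]
  have hpart : ∀ j K, ∑ k ∈ Finset.range K,
      ‖coeff k (f - (G j : PowerSeries ℂ))‖ ^ 2 * wt k ≤ e j := by
    intro j K
    obtain ⟨d, hd⟩ := Nat.exists_eq_add_of_le (le_max_right (K + 1) j)
    have h1 : ∑ k ∈ Finset.range K, ‖coeff k (f - (G j : PowerSeries ℂ))‖ ^ 2 * wt k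
        = ∑ k ∈ Finset.range K,
          ‖coeff k ((G (j + d) : PowerSeries ℂ) - (G j : PowerSeries ℂ))‖ ^ 2 * wt k := by
      refine Finset.sum_congr rfl fun k hk => ?_
      rw [Finset.mem_range] at hk
      have hkd : k + 1 ≤ j + d := by
        rw [← hd]
        exact le_trans (by omega) (le_max_left (K + 1) j)
      rw [map_sub, map_sub, hf (j + d) k hkd]
    rw [h1]
    exact ((hInsub (j + d) j).sum_le_tsum _ (fun i _ => mul_nonneg (sq_nonneg _) (hw0 _))).trans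
      (hns d j)
  have hin : ∀ j, InH wt (f - (G j : PowerSeries ℂ)) := fun j =>
    summable_of_sum_range_le (fun k => mul_nonneg (sq_nonneg _) (hw0 k)) (hpart j)
  have hle : ∀ j, nsq wt (f - (G j : PowerSeries ℂ)) ≤ e j := fun j =>
    Real.tsum_le_of_sum_range_le (fun k => mul_nonneg (sq_nonneg _) (hw0 k)) (hpart j)
  refine ⟨f, ?_, fun j => ?_⟩
  · have := InH.add hw0 (hin 0) (InH.of_poly (w := wt) (G 0))
    rw [sub_add_cancel] at this
    exact this.1
  · exact (hR j).2.2.2.2 f (hfd (j + 1)) (hin (j + 1)) (hle (j + 1))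

end Pool.Agent.X214.OP
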