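import Pool.Agent.X214.OP.Key

/-! One step of the construction. -/

namespace Pool.Agent.X214.OP

open PowerSeries

/-- the bound on the sum of the low coefficients of `q f - 1` -/
noncomputable def SS (w : ℕ → ℝ) (K ρ : ℝ) (M : ℕ) : ℝ :=
  (3 * M + 1) * (102 * (w (4 * M) / w (3 * M)) + 4 * (K / ρ ^ M) ^ 2)

theorem low_coeff {w : ℕ → ℝ} (hw : ∀ k, 0 < w k) (hm : Antitone w) {u : PowerSeries ℂ}
    (hu : InH w u) (n : ℕ) :
    (∑ i ∈ Finset.range (n + 1), ‖coeff i u‖) ^ 2 ≤ (n + 1) * (nsq w u / w n) := by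
  have h1 := sq_sum_le_card_mul_sum_sq (s := Finset.range (n + 1)) (f := fun i => ‖coeff i u‖)
  rw [Finset.card_range] at h1
  push_cast at h1
  refine h1.trans (mul_le_mul_of_nonneg_left ?_ (by positivity))
  rw [le_div_iff₀ (hw n), Finset.sum_mul]
  calc ∑ i ∈ Finset.range (n + 1), ‖coeff i u‖ ^ 2 * w n
      ≤ ∑ i ∈ Finset.range (n + 1), ‖coeff i u‖ ^ 2 * w i := by
        refine Finset.sum_le_sum fun i hi => ?_
        rw [Finset.mem_range] at hi
        exact mul_le_mul_of_nonneg_left (hm (by omega)) (sq_nonneg _)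
    _ ≤ nsq w u := hu.sum_le_tsum _ (fun i _ => mul_nonneg (sq_nonneg _) (hw i).le)

theorem q_close {w : ℕ → ℝ} (hw : ∀ k, 0 < w k) (hm : Antitone w) {ρ : ℝ} (hρ : 1 < ρ)
    {G : Polynomial ℂ} {g : PowerSeries ℂ}
    (hg : (G : PowerSeries ℂ) * g = 1) (hab : Ab ρ g) {a : ℂ} (ha : ‖a‖ ≤ 2) {M : ℕ} (hM : 0 < M) :
    ∃ ε : ℝ, 0 < ε ∧ ∀ f : PowerSeries ℂ, (X : PowerSeries ℂ) ^ (3 * M + 1) ∣ f - Gn G a M →
      InH w (f - Gn G a M) → nsq w (f - Gn G a M) ≤ ε → ∀ q, IsOPA w f (3 * M) q →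
      ∀ R : ℝ, 1 ≤ R → R ≤ ρ → ∀ z : ℂ, ‖z‖ ≤ R →
      ‖q.eval z - ev z (Hs g a M)‖ ≤ R ^ (3 * M)
        * (Real.sqrt (SS w (12 * nm ρ g * nm 1 (G : PowerSeries ℂ)) ρ M) * (3 * nm ρ g))
      + (tl ρ g (3 * M + 1) + 2 * R ^ (2 * M) * tl ρ g (M + 1)) := by
  have hw0 : ∀ k, 0 ≤ w k := fun k => (hw k).le
  have hm' : ∀ k, w (k + 1) ≤ w k := fun k => hm (Nat.le_succ k)
  obtain ⟨c1, c2⟩ := cand hw0 hm hρ.le hg hab ha hM
  set q0 : Polynomial ℂ := trunc (3 * M + 1) (Hs g a M) with hq0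
  have hq0deg : q0.natDegree ≤ 3 * M := by
    have := natDegree_trunc_lt (Hs g a M) (3 * M)
    rw [← hq0] at this
    omega
  obtain ⟨K, hK, hKm⟩ := InH.mul_poly hw0 hm' q0
  refine ⟨w (4 * M) / (K + 1), div_pos (hw _) (by linarith), ?_⟩
  intro f hdvd hin hε q hq R hR hRρ z hz
  -- bound of the norm of `r`
  have hdec : (q0 : PowerSeries ℂ) * f - 1
      = ((q0 : PowerSeries ℂ) * (Gn G a M) - 1) + (q0 : PowerSeries ℂ) * (f - Gn G a M) := by ring
  have h1 := hKm _ hin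
  have h2 := InH.add hw0 c1 h1.1
  rw [← hdec] at h2
  have h3 : K * nsq w (f - Gn G a M) ≤ w (4 * M) := by
    calc K * nsq w (f - Gn G a M) ≤ K * (w (4 * M) / (K + 1)) := mul_le_mul_of_nonneg_left hε hK
      _ = (K / (K + 1)) * w (4 * M) := by ring
      _ ≤ 1 * w (4 * M) := by
          refine mul_le_mul_of_nonneg_right ?_ (hw0 _)
          rw [div_le_one (by linarith)]; linarith
      _ = _ := one_mul _
  set r : PowerSeries ℂ := (q : PowerSeries ℂ) * f - 1 with hr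
  set Kc : ℝ := 12 * nm ρ g * nm 1 (G : PowerSeries ℂ) with hKc
  have h4 : nsq w r ≤ 102 * w (4 * M) + 4 * (w (3 * M) * (Kc / ρ ^ M) ^ 2) := by
    have := hq.2 q0 hq0deg
    linarith [h2.2, h1.2]
  have hfin : InH w f := by
    have := InH.add hw0 hin (InH.of_poly (w := w) (Gn G a M))
    rw [sub_add_cancel] at this
    exact this.1
  have hrin : InH w r := by
    obtain ⟨K', _, hK'⟩ := InH.mul_poly hw0 hm' q
    exact (InH.sub hw0 (hK' f hfin).1 InH.one).1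
  have h5 := low_coeff hw hm hrin (3 * M)
  have h6 : (∑ i ∈ Finset.range (3 * M + 1), ‖coeff i r‖) ^ 2 ≤ SS w Kc ρ M := by
    refine h5.trans ?_
    unfold SS
    push_cast
    refine mul_le_mul_of_nonneg_left ?_ (by positivity)
    rw [div_le_iff₀ (hw _)]
    refine h4.trans (le_of_eq ?_)
    have := (hw (3 * M)).ne'
    field_simp
  have h7 : ∑ i ∈ Finset.range (3 * M + 1), ‖coeff i r‖ ≤ Real.sqrt (SS w Kc ρ M) :=
    Real.le_sqrt_of_sq_le h6
  -- the congruence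
  have hcong : ∀ k < 3 * M + 1, coeff k (q : PowerSeries ℂ)
      = coeff k (Hs g a M) + coeff k (r * Hs g a M) := by
    have hd2 : (X : PowerSeries ℂ) ^ (3 * M + 1) ∣ (Gn G a M : PowerSeries ℂ) * Hs g a M - 1 := by
      rw [Gn_Hs hg]
      refine dvd_add ?_ ?_
      · exact Dvd.dvd.mul_left (pow_dvd_pow _ (by omega)) _
      · exact Dvd.dvd.mul_left (pow_dvd_pow _ (by omega)) _
    have e : Hs g a M + r * Hs g a M - q
        = (q : PowerSeries ℂ) * ((f - Gn G a M) * Hs g a M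
          + ((Gn G a M : PowerSeries ℂ) * Hs g a M - 1)) := by
      rw [hr]; ring
    have hd3 : (X : PowerSeries ℂ) ^ (3 * M + 1) ∣ Hs g a M + r * Hs g a M - q := by
      rw [e]
      exact Dvd.dvd.mul_left (dvd_add (Dvd.dvd.mul_right hdvd _) hd2) _
    intro k hk
    have := X_pow_dvd_iff.1 hd3 k hk
    rw [map_sub, map_add, sub_eq_zero] at this
    exact this.symm
  exact approx hR hRρ hab ha q hq.1 r hcong h7 hz

/-- a zero inside a ball, from the maximum modulus principle -/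
theorem zero_in_ball {Φ : ℂ → ℂ} (hΦ : Differentiable ℂ Φ) {s : ℂ} {t c : ℝ} (ht : 0 < t)
    (h1 : ‖Φ s‖ < c) (h2 : ∀ u, ‖u - s‖ = t → c ≤ ‖Φ u‖) : ∃ u, ‖u - s‖ ≤ t ∧ Φ u = 0 := by
  by_contra hcon
  push Not at hcon
  have hc : 0 < c := (norm_nonneg _).trans_lt h1
  have hcl : closure (Metric.ball s t) = Metric.closedBall s t := closure_ball s ht.ne'
  have hd : DiffContOnCl ℂ (fun u => (Φ u)⁻¹) (Metric.ball s t) := by
    refine DifferentiableOn.diffContOnCl ?_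
    rw [hcl]
    intro u hu
    rw [Metric.mem_closedBall, dist_eq_norm] at hu
    exact ((hΦ u).inv (hcon u hu)).differentiableWithinAt
  have hb : ∀ u ∈ frontier (Metric.ball s t), ‖(Φ u)⁻¹‖ ≤ c⁻¹ := by
    intro u hu
    rw [frontier_ball s ht.ne', mem_sphere_iff_norm] at hu
    rw [norm_inv]
    exact inv_anti₀ hc (h2 u hu)
  have h3 := Complex.norm_le_of_forall_mem_frontier_norm_le Metric.isBounded_ball hd hb
    (subset_closure (Metric.mem_ball_self ht))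
  rw [norm_inv] at h3
  have h4 : 0 < ‖Φ s‖ := norm_pos_iff.2 (hcon s (by simp [ht.le]))
  have h5 : c ≤ ‖Φ s‖ := (inv_le_inv₀ h4 hc).1 h3
  linarith

/-- the sector with vertex `ζ`, radius `ρ` and directions between `θ₁` and `θ₂` -/
def Sector (ζ : ℂ) (ρ θ₁ θ₂ : ℝ) : Set ℂ :=
  {z | ∃ r θ : ℝ, 0 < r ∧ r < ρ ∧ θ₁ < θ ∧ θ < θ₂ ∧ z = ζ + r * Complex.exp (θ * Complex.I)}

theorem sector_mem {θ₁ θ₂ : ℝ} (hθ : θ₁ < θ₂) : ∃ τ : ℝ, 0 < τ ∧ τ < 1 / 4 ∧
    ∀ w : ℂ, ‖w - 1 / 2‖ < τ → ∀ (m ρ : ℝ), 0 < m → 1 / m < ρ →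
      1 + (w / m) * Complex.exp (((θ₁ + θ₂) / 2 : ℝ) * Complex.I) ∈ Sector 1 ρ θ₁ θ₂ := by
  have hs : (1 / 2 : ℂ) ∈ Complex.slitPlane := by
    rw [Complex.mem_slitPlane_iff]; left; norm_num
  have harg : Complex.arg (1 / 2 : ℂ) = 0 := by
    have : (1 / 2 : ℂ) = ((1 / 2 : ℝ) : ℂ) := by push_cast; ring
    rw [this, Complex.arg_ofReal_of_nonneg (by norm_num)]
  have hc := Complex.continuousAt_arg hs
  have hδ : 0 < (θ₂ - θ₁) / 2 := by linarith
  obtain ⟨τ, hτ, h⟩ := Metric.continuousAt_iff.1 hc ((θ₂ - θ₁) / 2) hδ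
  refine ⟨min τ (1 / 8), lt_min hτ (by norm_num), lt_of_le_of_lt (min_le_right _ _) (by norm_num),
    ?_⟩
  intro w hw m ρ hm hmρ
  have h1 : dist w (1 / 2) < τ := by
    rw [dist_eq_norm]; exact hw.trans_le (min_le_left _ _)
  have h2 := h h1
  rw [harg, Real.dist_eq, sub_zero, abs_lt] at h2
  have h3 : ‖w - 1 / 2‖ < 1 / 8 := hw.trans_le (min_le_right _ _)
  have hhalf : ‖(1 / 2 : ℂ)‖ = 1 / 2 := by norm_num
  have h4 : ‖w‖ < 1 := by
    have : ‖w‖ ≤ ‖w - 1 / 2‖ + ‖(1 / 2 : ℂ)‖ := by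
      have := norm_add_le (w - 1 / 2) (1 / 2)
      rwa [sub_add_cancel] at this
    linarith
  have h5 : 0 < ‖w‖ := by
    have : ‖(1 / 2 : ℂ)‖ ≤ ‖w - 1 / 2‖ + ‖w‖ := by
      have := norm_sub_le w (w - 1 / 2)
      rw [sub_sub_cancel] at this
      linarith
    linarith
  refine ⟨‖w‖ / m, (θ₁ + θ₂) / 2 + Complex.arg w, by positivity, ?_, by linarith, by linarith, ?_⟩
  · refine lt_of_le_of_lt ?_ hmρ
    exact div_le_div_of_nonneg_right h4.le hm.le
  · have hw2 : (‖w‖ : ℂ) * Complex.exp (Complex.arg w * Complex.I) = w :=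
      Complex.norm_mul_exp_arg_mul_I w
    have : Complex.exp ((((θ₁ + θ₂) / 2 + Complex.arg w : ℝ) : ℂ) * Complex.I)
        = Complex.exp ((((θ₁ + θ₂) / 2 : ℝ) : ℂ) * Complex.I)
          * Complex.exp (Complex.arg w * Complex.I) := by
      rw [← Complex.exp_add]; congr 1; push_cast; ring
    rw [this]
    conv_lhs => rw [← hw2]
    push_cast
    ring

/-- the weight `exp (-√k)` -/
noncomputable def wt (k : ℕ) : ℝ := Real.exp (-Real.sqrt k)

theorem wt_pos (k : ℕ) : 0 < wt k := Real.exp_pos _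

theorem wt_anti : Antitone wt := by
  intro i j hij
  unfold wt
  rw [Real.exp_le_exp, neg_le_neg_iff]
  exact Real.sqrt_le_sqrt (by exact_mod_cast hij)

theorem sqrt_tendsto : Filter.Tendsto (fun M : ℕ => Real.sqrt M) Filter.atTop Filter.atTop :=
  Real.tendsto_sqrt_atTop.comp tendsto_natCast_atTop_atTop

theorem wt_tendsto : Filter.Tendsto wt Filter.atTop (nhds 0) :=
  Real.tendsto_exp_neg_atTop_nhds_zero.comp sqrt_tendsto

theorem SS_tendsto {ρ : ℝ} (hρ : 1 < ρ) (K : ℝ) :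
    Filter.Tendsto (SS wt K ρ) Filter.atTop (nhds 0) := by
  -- first part
  set c : ℝ := 2 - Real.sqrt 3 with hc
  have hc0 : 0 < c := by
    have : Real.sqrt 3 < 2 := by
      rw [Real.sqrt_lt' (by norm_num)]; norm_num
    linarith
  have hA : ∀ M : ℕ, wt (4 * M) / wt (3 * M) = Real.exp (-(c * Real.sqrt M)) := by
    intro M
    unfold wt
    rw [← Real.exp_sub]
    congr 1
    have h4 : Real.sqrt ((4 * M : ℕ) : ℝ) = 2 * Real.sqrt M := by
      push_cast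
      rw [Real.sqrt_mul (by norm_num), show (4 : ℝ) = 2 ^ 2 by norm_num,
        Real.sqrt_sq (by norm_num)]
    have h3 : Real.sqrt ((3 * M : ℕ) : ℝ) = Real.sqrt 3 * Real.sqrt M := by
      push_cast
      rw [Real.sqrt_mul (by norm_num)]
    rw [h4, h3, hc]; ring
  have hcs : Filter.Tendsto (fun M : ℕ => c * Real.sqrt M) Filter.atTop Filter.atTop :=
    sqrt_tendsto.const_mul_atTop hc0
  have h2 := (Real.tendsto_pow_mul_exp_neg_atTop_nhds_zero 2).comp hcs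
  have h0 := (Real.tendsto_pow_mul_exp_neg_atTop_nhds_zero 0).comp hcs
  have hr1 : |1 / ρ ^ 2| < 1 := by
    rw [abs_of_pos (by positivity), div_lt_one (by positivity)]
    nlinarith
  have h3 := tendsto_pow_const_mul_const_pow_of_abs_lt_one 1 hr1
  have h4 := tendsto_pow_const_mul_const_pow_of_abs_lt_one 0 hr1
  have hsum := (((h2.const_mul (3 * 102 / c ^ 2)).add (h0.const_mul 102)).add
    ((h3.const_mul (3 * 4 * K ^ 2)).add (h4.const_mul (4 * K ^ 2))))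
  rw [mul_zero, mul_zero, mul_zero, mul_zero, add_zero, add_zero] at hsum
  refine hsum.congr fun M => ?_
  unfold SS
  rw [hA M]
  simp only [Function.comp]
  have hM : (M : ℝ) = Real.sqrt M ^ 2 := (Real.sq_sqrt (Nat.cast_nonneg M)).symm
  have e1 : (3 * 102 / c ^ 2) * ((c * Real.sqrt M) ^ 2 * Real.exp (-(c * Real.sqrt M)))
      = 3 * 102 * M * Real.exp (-(c * Real.sqrt M)) := by
    rw [mul_pow, ← hM]
    field_simp
  have e2 : ((1 / ρ ^ 2) ^ M : ℝ) = 1 / (ρ ^ M) ^ 2 := by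
    rw [div_pow, one_pow, ← pow_mul, ← pow_mul, mul_comm]
  rw [e1, e2]
  have : ρ ^ M ≠ 0 := by positivity
  field_simp

end Pool.Agent.X214.OP
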