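import Pool.Agent.X214.OP.Step

/-! The inductive step. -/

namespace Pool.Agent.X214.OP

open PowerSeries

theorem exp_approx {u : ℂ} (hu : ‖u‖ ≤ 1) {m : ℝ} (hm : 1 ≤ m) :
    ‖(m : ℂ) * (Complex.exp (u / m) - 1) - u‖ ≤ 1 / m := by
  have hm0 : 0 < m := by linarith
  have hmc : (m : ℂ) ≠ 0 := by exact_mod_cast hm0.ne'
  have h1 : ‖u / (m : ℂ)‖ = ‖u‖ / m := by
    rw [norm_div, Complex.norm_real, Real.norm_of_nonneg hm0.le]
  have h2 : ‖u / (m : ℂ)‖ ≤ 1 := by
    rw [h1, div_le_one hm0]; linarith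
  have h3 := Complex.norm_exp_sub_one_sub_id_le h2
  have h4 : (m : ℂ) * (Complex.exp (u / m) - 1) - u
      = m * (Complex.exp (u / m) - 1 - u / m) := by
    field_simp
  rw [h4, norm_mul, Complex.norm_real, Real.norm_of_nonneg hm0.le]
  calc m * ‖Complex.exp (u / m) - 1 - u / m‖ ≤ m * ‖u / (m : ℂ)‖ ^ 2 :=
        mul_le_mul_of_nonneg_left h3 hm0.le
    _ = ‖u‖ ^ 2 / m := by rw [h1]; field_simp
    _ ≤ 1 / m := by
        refine div_le_div_of_nonneg_right ?_ hm0.le
        exact pow_le_one₀ (norm_nonneg _) hu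

theorem step {G : Polynomial ℂ} (hG : Good G) (N : ℕ) {ε : ℝ} (hε : 0 < ε) {θ₁ θ₂ ρs : ℝ}
    (hθ : θ₁ < θ₂) (hρs : 0 < ρs) :
    ∃ G' : Polynomial ℂ, Good G' ∧ (X : PowerSeries ℂ) ^ N ∣ (G' : PowerSeries ℂ) - G ∧
      nsq wt ((G' : PowerSeries ℂ) - G) ≤ ε ∧
      ∃ N', N < N' ∧ ∃ ε' : ℝ, 0 < ε' ∧ ∃ n : ℕ, ∀ f : PowerSeries ℂ,
        (X : PowerSeries ℂ) ^ N' ∣ f - G' → InH wt (f - G') → nsq wt (f - G') ≤ ε' →
        ∀ q, IsOPA wt f n q → ∃ z ∈ Sector 1 ρs θ₁ θ₂, q.eval z = 0 := by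
  have hG' := hG
  obtain ⟨g, hg, ρ, hρ, hab⟩ := hG'
  have hρ0 : 0 < ρ := by linarith
  obtain ⟨τ, hτ, hτ4, hsec⟩ := sector_mem hθ
  set θ₀ : ℝ := (θ₁ + θ₂) / 2 with hθ₀
  set e0 : ℂ := Complex.exp ((θ₀ : ℝ) * Complex.I) with he0
  have he0n : ‖e0‖ = 1 := Complex.norm_exp_ofReal_mul_I θ₀
  have he0ne : e0 ≠ 0 := Complex.exp_ne_zero _
  set s : ℂ := (1 / 2) * e0 with hs
  have hsn : ‖s‖ = 1 / 2 := by rw [hs, norm_mul, he0n]; norm_num
  set a : ℂ := Complex.exp (-s) with ha
  have han : ‖a‖ < 2 := by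
    rw [ha, Complex.norm_exp]
    have h1 : (-s).re ≤ 1 / 2 := by
      have := Complex.abs_re_le_norm (-s)
      rw [norm_neg, hsn] at this
      exact (le_abs_self _).trans this
    have h2 : Real.exp (1 / 2) < 2 := by
      have h3 : Real.exp (1 / 2) ^ 2 = Real.exp 1 := by
        rw [← Real.exp_nat_mul]; norm_num
      have h4 := Real.exp_one_lt_d9
      have h5 := Real.exp_pos (1 / 2 : ℝ)
      nlinarith
    exact (Real.exp_le_exp.2 h1).trans_lt h2
  set t : ℝ := τ / 2 with ht
  have ht0 : 0 < t := by positivity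
  set B := nm ρ g with hB
  set D := nm 1 (G : PowerSeries ℂ) with hD
  set D2 := nm ρ (G : PowerSeries ℂ) with hD2
  have hGab : Ab ρ (G : PowerSeries ℂ) := Ab.of_poly ρ G
  have hinv : ∀ z : ℂ, ‖z‖ ≤ ρ → 1 ≤ D2 * ‖ev z g‖ := by
    intro z hz
    have h1 := ev_mul hGab hab hz
    rw [hg, ev_one] at h1
    have h2 : ‖(1 : ℂ)‖ = ‖ev z (G : PowerSeries ℂ)‖ * ‖ev z g‖ := by rw [h1, norm_mul]
    rw [norm_one] at h2
    rw [h2]
    exact mul_le_mul_of_nonneg_right (norm_ev_le hGab hz) (norm_nonneg _)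
  have hD2pos : 0 < D2 := by
    have h1 := hinv 0 (by simp [hρ0.le])
    by_contra hcon
    have h2 : D2 = 0 := le_antisymm (not_lt.1 hcon) (nm_nonneg hρ0.le _)
    rw [h2, zero_mul] at h1
    linarith
  set c : ℝ := t / (4 * D2) with hc
  have hc0 : 0 < c := by positivity
  -- eventual conditions
  have T1 : Filter.Tendsto (fun M : ℕ => 9 * (Real.sqrt (SS wt (12 * B * D) ρ M) * (3 * B))
      + (tl ρ g (3 * M + 1) + 2 * 3 * tl ρ g (M + 1))) Filter.atTop (nhds 0) := by
    have h1 := (Real.continuous_sqrt.tendsto 0).comp (SS_tendsto hρ (12 * B * D))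
    rw [Real.sqrt_zero] at h1
    have h2 := (h1.mul_const (3 * B)).const_mul 9
    have h3 : Filter.Tendsto (fun M : ℕ => 3 * M + 1) Filter.atTop Filter.atTop :=
      Filter.tendsto_atTop_mono (fun M => by simp only [id]; omega) Filter.tendsto_id
    have h4 : Filter.Tendsto (fun M : ℕ => M + 1) Filter.atTop Filter.atTop :=
      Filter.tendsto_atTop_mono (fun M => by simp only [id]; omega) Filter.tendsto_id
    have h5 := (tl_tendsto (ρ := ρ) g).comp h3
    have h6 := ((tl_tendsto (ρ := ρ) g).comp h4).const_mul (2 * 3)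
    have h7 := h2.add (h5.add h6)
    simpa using h7
  have T2 : Filter.Tendsto (fun M : ℕ => 1 / (2 * (M : ℝ))) Filter.atTop (nhds 0) := by
    have h1 := (tendsto_one_div_atTop_nhds_zero_nat (𝕜 := ℝ)).const_mul (1 / 2)
    rw [mul_zero] at h1
    refine h1.congr fun M => ?_
    rw [one_div_mul_one_div]
  have T3 : Filter.Tendsto (fun M : ℕ => Real.exp (1 / (2 * (M : ℝ)))) Filter.atTop (nhds 1) := by
    have := (Real.continuous_exp.tendsto 0).comp T2
    rwa [Real.exp_zero] at this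
  have T4 : Filter.Tendsto (fun M : ℕ => wt (2 * M) * (3 * D) ^ 2) Filter.atTop (nhds 0) := by
    have h3 : Filter.Tendsto (fun M : ℕ => 2 * M) Filter.atTop Filter.atTop :=
      Filter.tendsto_atTop_mono (fun M => by simp only [id]; omega) Filter.tendsto_id
    have := (wt_tendsto.comp h3).mul_const ((3 * D) ^ 2)
    rw [zero_mul] at this
    exact this
  obtain ⟨M, hM1, hM2, hM3, hM4, hM5, hM6⟩ := ((T1.eventually_lt_const hc0).and
    ((T3.eventually_lt_const hρ).and ((T2.eventually_lt_const ht0).and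
    ((T2.eventually_lt_const hρs).and ((T4.eventually_lt_const hε).and
    (Filter.eventually_ge_atTop (N + 1))))))).exists
  have hM0 : 0 < M := by omega
  have hMr : (0 : ℝ) < M := by exact_mod_cast hM0
  have hMr1 : (1 : ℝ) ≤ M := by exact_mod_cast hM0
  obtain ⟨ε', hε', hq⟩ := q_close wt_pos wt_anti hρ hg hab han.le hM0
  have hsubc : ((Gn G a M : Polynomial ℂ) : PowerSeries ℂ) - (G : PowerSeries ℂ)
      = (G : PowerSeries ℂ) * (X ^ (2 * M) * (C a + C (a ^ 2 / 4) * X ^ (2 * M))) := by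
    rw [← Gn_sub, Polynomial.coe_sub]
  refine ⟨Gn G a M, Gn_good hG han hM0, ?_, ?_, 3 * M + 1, by omega, ε', hε', 3 * M, ?_⟩
  · rw [hsubc]
    exact Dvd.dvd.mul_left (Dvd.dvd.mul_right (pow_dvd_pow _ (by omega)) _) _
  · have h0 : ∀ k < 2 * M, coeff k (((Gn G a M : Polynomial ℂ) : PowerSeries ℂ) - (G : PowerSeries ℂ)) = 0 := by
      refine X_pow_dvd_iff.1 ?_
      rw [hsubc]
      exact Dvd.dvd.mul_left (Dvd.dvd.mul_right (dvd_refl _) _) _
    have e1 : (X : PowerSeries ℂ) ^ (2 * M) * (C a + C (a ^ 2 / 4) * X ^ (2 * M))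
        = C a * X ^ (2 * M) + C (a ^ 2 / 4) * X ^ (2 * M + 2 * M) := by
      rw [pow_add]; ring
    have h1 := nm_term zero_le_one a (2 * M)
    have h2 := nm_term zero_le_one (a ^ 2 / 4) (2 * M + 2 * M)
    have h3 := Ab.add zero_le_one h1.1 h2.1
    have h4 : nm 1 (C a * X ^ (2 * M) + C (a ^ 2 / 4) * X ^ (2 * M + 2 * M)) ≤ 3 := by
      refine h3.2.trans ?_
      rw [h1.2, h2.2, one_pow, one_pow, mul_one, mul_one, norm_div, norm_pow]
      have : ‖a‖ ^ 2 ≤ 2 ^ 2 := pow_le_pow_left₀ (norm_nonneg _) han.le 2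
      simp only [Complex.norm_ofNat]
      linarith
    have h5 := Ab.mul zero_le_one (Ab.of_poly 1 G) h3.1
    have h6 : Ab 1 (((Gn G a M : Polynomial ℂ) : PowerSeries ℂ) - (G : PowerSeries ℂ)) := by
      rw [hsubc, e1]; exact h5.1
    have h7 : nm 1 (((Gn G a M : Polynomial ℂ) : PowerSeries ℂ) - (G : PowerSeries ℂ)) ≤ 3 * D := by
      rw [hsubc, e1]
      refine h5.2.trans ?_
      have := mul_le_mul_of_nonneg_left h4 (nm_nonneg zero_le_one (G : PowerSeries ℂ))
      linarith
    refine (nsq_le (fun k => (wt_pos k).le) wt_anti h6 (2 * M) h0).2.trans (le_trans ?_ hM5.le)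
    refine mul_le_mul_of_nonneg_left ?_ (wt_pos _).le
    exact pow_le_pow_left₀ (nm_nonneg zero_le_one _) h7 2
  · intro f hf1 hf2 hf3 q hqo
    set m : ℝ := 2 * M with hm
    have hm0 : 0 < m := by positivity
    have hm1 : 1 ≤ m := by rw [hm]; linarith
    set R : ℝ := Real.exp (1 / m) with hR
    have hR1 : 1 ≤ R := Real.one_le_exp (by positivity)
    have hRρ : R ≤ ρ := hM2.le
    have hR3 : R ^ (3 * M) ≤ 9 := by
      rw [hR, ← Real.exp_nat_mul]
      have h1 : ((3 * M : ℕ) : ℝ) * (1 / m) = 3 / 2 := by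
        rw [hm]; push_cast; field_simp
      rw [h1]
      have h2 : Real.exp (3 / 2) ^ 2 = Real.exp 1 ^ 3 := by
        rw [← Real.exp_nat_mul, ← Real.exp_nat_mul]; norm_num
      have h4 := Real.exp_one_lt_d9
      have h5 := Real.exp_pos (3 / 2 : ℝ)
      have h6 : Real.exp 1 ^ 3 ≤ 3 ^ 3 :=
        pow_le_pow_left₀ (Real.exp_pos _).le (by linarith) 3
      nlinarith
    have hR2 : R ^ (2 * M) ≤ 3 := by
      rw [hR, ← Real.exp_nat_mul]
      have h1 : ((2 * M : ℕ) : ℝ) * (1 / m) = 1 := by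
        rw [hm]; push_cast; field_simp
      rw [h1]
      have h4 := Real.exp_one_lt_d9
      linarith
    have hB0 : 0 ≤ B := nm_nonneg hρ0.le g
    have hclose : ∀ u : ℂ, ‖u - s‖ ≤ t →
        ‖q.eval (Complex.exp (u / m)) - (1 - Complex.exp (u - s)) * ev (Complex.exp (u / m)) g‖ < c
          ∧ ‖Complex.exp (u / m)‖ ≤ ρ := by
      intro u hu
      have hun : ‖u‖ ≤ 1 := by
        have := norm_add_le (u - s) s
        rw [sub_add_cancel] at this
        linarith
      have hz : ‖Complex.exp (u / m)‖ ≤ R := by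
        rw [Complex.norm_exp, hR, Real.exp_le_exp]
        have h1 : (u / (m : ℂ)).re = u.re / m := Complex.div_ofReal_re u m
        rw [h1]
        refine div_le_div_of_nonneg_right ?_ hm0.le
        exact (Complex.re_le_norm u).trans hun
      have h1 := hq f hf1 hf2 hf3 q hqo R hR1 hRρ _ hz
      have hzρ := hz.trans hRρ
      have h2 : ev (Complex.exp (u / m)) (Hs g a M)
          = (1 - Complex.exp (u - s)) * ev (Complex.exp (u / m)) g := by
        unfold Hs
        rw [ev_mul (nm_fac hρ0.le a _).1 hab hzρ]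
        congr 1
        have h3 : (1 - C a * X ^ (2 * M) : PowerSeries ℂ) = C 1 * X ^ 0 - C a * X ^ (2 * M) := by
          rw [map_one, pow_zero]; ring
        rw [h3, ev_sub (nm_term hρ0.le 1 0).1 (nm_term hρ0.le a (2 * M)).1 hzρ, ev_term, ev_term,
          pow_zero, mul_one]
        congr 1
        rw [ha, ← Complex.exp_nat_mul, ← Complex.exp_add]
        congr 1
        rw [hm]
        push_cast
        have : (M : ℂ) ≠ 0 := by exact_mod_cast hM0.ne'
        field_simp
        ring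
      rw [h2] at h1
      refine ⟨h1.trans_lt (lt_of_le_of_lt ?_ hM1), hzρ⟩
      refine add_le_add ?_ (add_le_add le_rfl ?_)
      · exact mul_le_mul_of_nonneg_right hR3 (by positivity)
      · refine mul_le_mul_of_nonneg_right ?_ (tl_nonneg hρ0.le g _)
        linarith
    have hdiff : Differentiable ℂ fun u : ℂ => q.eval (Complex.exp (u / m)) := by
      have h1 : Differentiable ℂ fun u : ℂ => Complex.exp (u / m) :=
        (differentiable_id.div_const _).cexp
      exact q.differentiable.comp h1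
    obtain ⟨u, hu, hu0⟩ := zero_in_ball (c := c) hdiff (s := s) ht0
      (by
        have h1 := (hclose s (by simp [ht0.le])).1
        rw [sub_self, Complex.exp_zero, sub_self, zero_mul, sub_zero] at h1
        exact h1)
      (by
        intro u hu
        obtain ⟨h1, h2⟩ := hclose u hu.le
        have h3 := hinv _ h2
        have h4 : t / 2 ≤ ‖1 - Complex.exp (u - s)‖ := by
          have h5 : ‖u - s‖ ≤ 1 := by rw [hu]; linarith
          have h6 := Complex.norm_exp_sub_one_sub_id_le h5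
          rw [hu] at h6
          have h7 : ‖u - s‖ ≤ ‖1 - Complex.exp (u - s)‖
              + ‖Complex.exp (u - s) - 1 - (u - s)‖ := by
            have h8 : u - s = -(1 - Complex.exp (u - s))
              - (Complex.exp (u - s) - 1 - (u - s)) := by ring
            calc ‖u - s‖ = ‖-(1 - Complex.exp (u - s))
                  - (Complex.exp (u - s) - 1 - (u - s))‖ := by rw [← h8]
              _ ≤ _ := (norm_sub_le _ _).trans (by rw [norm_neg])
          rw [hu] at h7
          nlinarith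
        have h8 : 2 * c ≤ ‖(1 - Complex.exp (u - s)) * ev (Complex.exp (u / m)) g‖ := by
          rw [norm_mul]
          have h9 : 1 / D2 ≤ ‖ev (Complex.exp (u / m)) g‖ := by
            rw [div_le_iff₀ hD2pos]; linarith
          have h10 := mul_le_mul h4 h9 (by positivity) (norm_nonneg _)
          refine le_trans (le_of_eq ?_) h10
          rw [hc]; field_simp; ring
        have h11 := norm_sub_norm_le ((1 - Complex.exp (u - s)) * ev (Complex.exp (u / m)) g)
          (q.eval (Complex.exp (u / m)))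
        rw [norm_sub_rev] at h11
        linarith)
    refine ⟨Complex.exp (u / m), ?_, hu0⟩
    have hun : ‖u‖ ≤ 1 := by
      have := norm_add_le (u - s) s
      rw [sub_add_cancel] at this
      linarith
    have h1 := exp_approx hun hm1
    set w0 : ℂ := m * (Complex.exp (u / m) - 1) / e0 with hw0
    have hmc : (m : ℂ) ≠ 0 := by exact_mod_cast hm0.ne'
    have h2 : ‖w0 - 1 / 2‖ < τ := by
      have h3 : w0 - 1 / 2 = (m * (Complex.exp (u / m) - 1) - s) / e0 := by
        rw [hw0, hs]; field_simp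
      rw [h3, norm_div, he0n, div_one]
      have h4 : (m : ℂ) * (Complex.exp (u / m) - 1) - s
          = (m * (Complex.exp (u / m) - 1) - u) + (u - s) := by ring
      rw [h4]
      refine (norm_add_le _ _).trans_lt ?_
      have h5 : 1 / m < t := hM3
      have h6 : τ = t + t := by rw [ht]; ring
      linarith
    have h3 := hsec w0 h2 m ρs hm0 hM4
    have h4 : 1 + w0 / m * e0 = Complex.exp (u / m) := by
      rw [hw0]; field_simp; ring
    rw [h4] at h3
    exact h3

end Pool.Agent.X214.OP
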